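import Pool.Agent.Y924.UF.Lem
import Pool.Agent.Y686.UF.Clo
import Pool.Agent.Y151.UF.Exr
import Pool.Agent.Y410.UF.Disc2

/-! # Definable relations, semantically -/

set_option autoImplicit false

namespace Pool.Agent.K9h38.VG

open Function Pool.Agent.Y924.EL Pool.Agent.Y924.UF

variable {K : Type} [CommRing K]

/-- the relation is definable by a formula (in the variables `x_0, x_1, ...`) -/
def Df (P : Set K) (R : (ℕ → K) → Prop) : Prop := ∃ φ : Fm, ∀ v, Sat P φ v ↔ R v

variable {P : Set K} {R R' : (ℕ → K) → Prop}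

theorem Df.congr (h : Df P R) (h' : ∀ v, R' v ↔ R v) : Df P R' := by
  obtain ⟨φ, h⟩ := h
  exact ⟨φ, fun v => (h v).trans (h' v).symm⟩

theorem Df.not (h : Df P R) : Df P (fun v => ¬ R v) := by
  obtain ⟨φ, h⟩ := h
  exact ⟨.neg φ, fun v => not_congr (h v)⟩

theorem Df.and (h : Df P R) (h' : Df P R') : Df P (fun v => R v ∧ R' v) := by
  obtain ⟨φ, h⟩ := h
  obtain ⟨ψ, h'⟩ := h'
  exact ⟨.and φ ψ, fun v => and_congr (h v) (h' v)⟩

theorem Df.or (h : Df P R) (h' : Df P R') : Df P (fun v => R v ∨ R' v) :=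
  ((h.not.and h'.not).not).congr fun v => by tauto

theorem Df.imp (h : Df P R) (h' : Df P R') : Df P (fun v => R v → R' v) :=
  ((h.and h'.not).not).congr fun v => by tauto

theorem Df.eqv (i j : ℕ) : Df P (fun v => v i = v j) := ⟨.eq i j, fun _ => Iff.rfl⟩

theorem Df.true : Df P (fun _ => True) := (Df.eqv 0 0).congr fun _ => by simp

theorem Df.const (q : Prop) : Df P (fun _ => q) := by
  by_cases hq : q
  · exact Df.true.congr fun _ => by simp [hq]
  · exact Df.true.not.congr fun _ => by simp [hq]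

theorem Df.all_lt (n : ℕ) {Q : ℕ → (ℕ → K) → Prop} (h : ∀ i, i < n → Df P (Q i)) :
    Df P (fun v => ∀ i, i < n → Q i v) := by
  induction n with
  | zero => exact Df.true.congr fun _ => by simp
  | succ n ih =>
    refine ((ih fun i hi => h i (by omega)).and (h n (by omega))).congr fun v => ?_
    constructor
    · intro h1
      exact ⟨fun i hi => h1 i (by omega), h1 n (by omega)⟩
    · rintro ⟨h1, h2⟩ i hi
      rcases Nat.lt_succ_iff_lt_or_eq.1 hi with h3 | rfl
      · exact h1 i h3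
      · exact h2

theorem Df.ex_lt (n : ℕ) {Q : ℕ → (ℕ → K) → Prop} (h : ∀ i, i < n → Df P (Q i)) :
    Df P (fun v => ∃ i, i < n ∧ Q i v) := by
  refine (Df.all_lt n fun i hi => (h i hi).not).not.congr fun v => ?_
  push Not
  rfl

theorem Df.inj (h : Df P R) {σ : ℕ → ℕ} (hσ : Injective σ) : Df P (fun v => R (v ∘ σ)) := by
  obtain ⟨φ, h⟩ := h
  exact ⟨ren σ φ, fun v => (Pool.Agent.Y410.UF.sat_ren P hσ φ v).trans (h _)⟩

theorem Df.dep (h : Df P R) : ∃ V : ℕ, ∀ a b : ℕ → K, (∀ i, i < V → a i = b i) →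
    (R a ↔ R b) := by
  obtain ⟨φ, h⟩ := h
  obtain ⟨V, hV⟩ := Pool.Agent.Y686.UF.t_CLO.1 φ
  refine ⟨V, fun a b hab => ?_⟩
  rw [← h, ← h]
  exact sat_agree P φ (hV V le_rfl) a b hab

/-- two assignments in one -/
def mix (v u : ℕ → K) (n : ℕ) : K := if n % 2 = 0 then v (n / 2) else u (n / 2)

omit [CommRing K] in
theorem mix_ev (v u : ℕ → K) : (fun n => mix v u (2 * n)) = v := by
  funext n
  unfold mix
  rw [if_pos (by omega)]
  congr 1
  omega

omit [CommRing K] in
theorem mix_od (v u : ℕ → K) : (fun n => mix v u (2 * n + 1)) = u := by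
  funext n
  unfold mix
  rw [if_neg (by omega)]
  congr 1
  omega

/-- existential quantification over all variables of a block -/
theorem Df.exs {R : (ℕ → K) → (ℕ → K) → Prop}
    (h : Df P (fun w => R (fun n => w (2 * n)) (fun n => w (2 * n + 1)))) :
    Df P (fun v => ∃ u, R v u) := by
  obtain ⟨φ, h⟩ := h
  obtain ⟨V, hV⟩ := Pool.Agent.Y686.UF.t_CLO.1 φ
  have hb := hV V le_rfl
  let σ : ℕ → ℕ := fun m => if m < V then (if m % 2 = 0 then m / 2 else V + m / 2) else 2 * V + m
  have hσ : Injective σ := by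
    intro i j hij
    simp only [σ] at hij
    split_ifs at hij <;> omega
  refine ⟨exR V V (ren σ φ), fun v => ?_⟩
  rw [Pool.Agent.Y151.UF.t_EXR K P V V]
  constructor
  · rintro ⟨w, hw, h1⟩
    rw [Pool.Agent.Y410.UF.sat_ren P hσ] at h1
    refine ⟨fun n => w (V + n), ?_⟩
    have h2 : Sat P φ (mix v (fun n => w (V + n))) := by
      refine (sat_agree P φ hb _ _ fun i hi => ?_).1 h1
      simp only [comp_apply, σ, mix, if_pos hi]
      split_ifs with h3
      · exact hw _ (Or.inl (by omega))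
      · rfl
    have h3 : R (fun n => mix v (fun n => w (V + n)) (2 * n))
      (fun n => mix v (fun n => w (V + n)) (2 * n + 1)) := (h _).1 h2
    rw [mix_ev, mix_od] at h3
    exact h3
  · rintro ⟨u, h1⟩
    refine ⟨fun m => if V ≤ m ∧ m < 2 * V then u (m - V) else v m, fun j hj => ?_, ?_⟩
    · beta_reduce
      rw [if_neg (by omega)]
    · rw [Pool.Agent.Y410.UF.sat_ren P hσ]
      have h2 : Sat P φ (mix v u) := by
        rw [h]
        change R (fun n => mix v u (2 * n)) (fun n => mix v u (2 * n + 1))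
        rw [mix_ev, mix_od]
        exact h1
      refine (sat_agree P φ hb _ _ fun i hi => ?_).1 h2
      simp only [comp_apply, σ, mix, if_pos hi]
      split_ifs with h3 h4 h5
      · omega
      · rfl
      · congr 1
        omega
      · omega

/-- a function on the natural numbers given by its value at zero and the other values -/
def cns {α : Type} (a : α) (f : ℕ → α) : ℕ → α
  | 0 => a
  | m + 1 => f m

/-- arbitrary renaming of the free variables -/
theorem Df.sub (h : Df P R) (σ : ℕ → ℕ) : Df P (fun v => R (fun n => v (σ n))) := by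
  obtain ⟨V, hV⟩ := h.dep
  have h1 : Df P (fun v => ∃ u : ℕ → K, (∀ n, n < V → u n = v (σ n)) ∧ R u) := by
    refine Df.exs (R := fun v u => (∀ n, n < V → u n = v (σ n)) ∧ R u) ?_
    refine (Df.all_lt V fun n _ => Df.eqv (2 * n + 1) (2 * σ n)).and ?_
    exact h.inj (σ := fun n => 2 * n + 1) (by intro i j h; simpa using h)
  refine h1.congr fun v => ⟨fun h => ⟨_, fun _ _ => rfl, h⟩, ?_⟩
  rintro ⟨u, h2, h3⟩
  exact (hV _ _ fun i hi => h2 i hi).1 h3

/-- the function is definable -/
def DFn (P : Set K) (f : (ℕ → K) → K) : Prop := Df P (fun w => w 0 = f (fun n => w (n + 1)))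

theorem DFn.sub {f : (ℕ → K) → K} (hf : DFn P f) (σ : ℕ → ℕ) :
    DFn P (fun v => f (fun n => v (σ n))) :=
  Df.sub hf (cns 0 (fun m => σ m + 1))

theorem DFn.var (i : ℕ) : DFn P (fun v => v i) := Df.eqv 0 (i + 1)

/-- composition with definable functions -/
theorem Df.comp (h : Df P R) {F : ℕ → (ℕ → K) → K} (hF : ∀ i, DFn P (F i)) :
    Df P (fun v => R (fun i => F i v)) := by
  obtain ⟨V, hV⟩ := h.dep
  have h1 : Df P (fun v => ∃ u : ℕ → K, (∀ n, n < V → u n = F n v) ∧ R u) := by
    refine Df.exs (R := fun v u => (∀ n, n < V → u n = F n v) ∧ R u) ?_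
    refine (Df.all_lt V fun n _ => ?_).and ?_
    · exact Df.sub (hF n) (cns (2 * n + 1) (fun m => 2 * m))
    · exact h.inj (σ := fun n => 2 * n + 1) (by intro i j h; simpa using h)
  refine h1.congr fun v => ⟨fun h => ⟨_, fun _ _ => rfl, h⟩, ?_⟩
  rintro ⟨u, h2, h3⟩
  exact (hV _ _ fun i hi => h2 i hi).1 h3

theorem Df.c1 {Q : K → Prop} (h : Df P (fun v => Q (v 0))) {f : (ℕ → K) → K} (hf : DFn P f) :
    Df P (fun v => Q (f v)) :=
  Df.comp h (F := fun _ => f) fun _ => hf

theorem Df.c2 {Q : K → K → Prop} (h : Df P (fun v => Q (v 0) (v 1))) {f g : (ℕ → K) → K}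
    (hf : DFn P f) (hg : DFn P g) : Df P (fun v => Q (f v) (g v)) :=
  Df.comp h (F := cns f (fun _ => g)) fun i => by
    cases i
    · exact hf
    · exact hg

theorem Df.c3 {Q : K → K → K → Prop} (h : Df P (fun v => Q (v 0) (v 1) (v 2)))
    {f g k : (ℕ → K) → K} (hf : DFn P f) (hg : DFn P g) (hk : DFn P k) :
    Df P (fun v => Q (f v) (g v) (k v)) :=
  Df.comp h (F := cns f (cns g (fun _ => k))) fun i => by
    cases i with
    | zero => exact hf
    | succ i =>
      cases i
      · exact hg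
      · exact hk

/-- quantification over one variable -/
theorem Df.ex1 {R : K → (ℕ → K) → Prop} (h : Df P (fun w => R (w 0) (fun n => w (n + 1)))) :
    Df P (fun v => ∃ a, R a v) := by
  have h1 : Df P (fun v => ∃ u : ℕ → K, R (u 0) v) := by
    refine Df.exs (R := fun v u => R (u 0) v) ?_
    exact h.sub (cns 1 (fun m => 2 * m))
  refine h1.congr fun v => ⟨?_, ?_⟩
  · rintro ⟨a, ha⟩
    exact ⟨fun _ => a, ha⟩
  · rintro ⟨u, hu⟩
    exact ⟨_, hu⟩

theorem Df.all1 {R : K → (ℕ → K) → Prop} (h : Df P (fun w => R (w 0) (fun n => w (n + 1)))) :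
    Df P (fun v => ∀ a, R a v) := by
  refine (Df.ex1 (R := fun a v => ¬ R a v) h.not).not.congr fun v => ?_
  push Not
  rfl

section

variable {f g k : (ℕ → K) → K}

theorem Df.eq (hf : DFn P f) (hg : DFn P g) : Df P (fun v => f v = g v) :=
  Df.c2 (Q := fun a b => a = b) (Df.eqv 0 1) hf hg

theorem DFn.add (hf : DFn P f) (hg : DFn P g) : DFn P (fun v => f v + g v) := by
  have h : Df P (fun w => f (fun n => w (n + 1)) + g (fun n => w (n + 1)) = w 0) :=
    Df.c3 (Q := fun a b c => a + b = c) ⟨.add 0 1 2, fun _ => Iff.rfl⟩ (hf.sub _) (hg.sub _)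
      (DFn.var 0)
  exact h.congr fun w => eq_comm

theorem DFn.mul (hf : DFn P f) (hg : DFn P g) : DFn P (fun v => f v * g v) := by
  have h : Df P (fun w => f (fun n => w (n + 1)) * g (fun n => w (n + 1)) = w 0) :=
    Df.c3 (Q := fun a b c => a * b = c) ⟨.mul 0 1 2, fun _ => Iff.rfl⟩ (hf.sub _) (hg.sub _)
      (DFn.var 0)
  exact h.congr fun w => eq_comm

theorem DFn.one : DFn P (fun _ => (1 : K)) := ⟨.one 0, fun _ => Iff.rfl⟩

theorem DFn.zero : DFn P (fun _ => (0 : K)) := by
  refine ⟨.add 0 0 0, fun v => ?_⟩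
  change v 0 + v 0 = v 0 ↔ v 0 = 0
  exact add_eq_left

theorem DFn.sub' (hf : DFn P f) (hg : DFn P g) : DFn P (fun v => f v - g v) := by
  have h : Df P (fun w => w 0 + g (fun n => w (n + 1)) = f (fun n => w (n + 1))) :=
    Df.c3 (Q := fun a b c => a + b = c) ⟨.add 0 1 2, fun _ => Iff.rfl⟩ (DFn.var 0) (hg.sub _)
      (hf.sub _)
  exact h.congr fun w => eq_sub_iff_add_eq

theorem DFn.pow (hf : DFn P f) (n : ℕ) : DFn P (fun v => f v ^ n) := by
  induction n with
  | zero =>
    have : (fun v => f v ^ 0) = fun _ => (1 : K) := by funext v; simp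
    rw [this]
    exact DFn.one
  | succ n ih =>
    have : (fun v => f v ^ (n + 1)) = fun v => f v ^ n * f v := by funext v; exact pow_succ _ _
    rw [this]
    exact ih.mul hf

theorem DFn.prod (n : ℕ) {F : ℕ → (ℕ → K) → K} (h : ∀ i, i < n → DFn P (F i)) :
    DFn P (fun v => ∏ i ∈ Finset.range n, F i v) := by
  induction n with
  | zero =>
    have : (fun v => ∏ i ∈ Finset.range 0, F i v) = fun _ => (1 : K) := by funext v; simp
    rw [this]
    exact DFn.one
  | succ n ih =>
    have : (fun v => ∏ i ∈ Finset.range (n + 1), F i v) =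
        fun v => (∏ i ∈ Finset.range n, F i v) * F n v := by
      funext v
      exact Finset.prod_range_succ _ _
    rw [this]
    exact (ih fun i hi => h i (by omega)).mul (h n (by omega))

theorem Df.ne (hf : DFn P f) (hg : DFn P g) : Df P (fun v => f v ≠ g v) := (Df.eq hf hg).not

end

end Pool.Agent.K9h38.VG
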