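import Pool.Agent.K9h38.VG.Sec2

/-! # Families of approximate sections -/

set_option autoImplicit false

namespace Pool.Agent.K9h38.VG

open Function Pool.Agent.Y924.EL Pool.Agent.Y924.UF Finset

variable {p : ℕ} [Fact p.Prime] {P : Set (LaurentSeries (ZMod p))}

theorem single_ne (n : ℤ) : (HahnSeries.single n (1 : ZMod p) : LaurentSeries (ZMod p)) ≠ 0 :=
  HahnSeries.single_ne_zero one_ne_zero

theorem ord_single (n : ℤ) :
    (HahnSeries.single n (1 : ZMod p) : LaurentSeries (ZMod p)).order = n :=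
  HahnSeries.order_single one_ne_zero

/-- true arithmetic is reducible to the theory if a definable family contains approximate
multi-sections of each length -/
theorem arith_of_sections (φ : Fm) (C : ℕ)
    (h : ∀ H : ℕ, ∃ (u : ℕ → LaurentSeries (ZMod p)) (m : ℤ), ∀ i : ℤ, m ≤ i → i < m + H →
      (∃ x, Sat P φ (update u 0 x) ∧ x ≠ 0 ∧ x.order = i) ∧
      ∃ G : Finset (LaurentSeries (ZMod p)), G.card ≤ C ∧
        ∀ x, Sat P φ (update u 0 x) → x ≠ 0 → x.order = i →
          ∃ y ∈ G, ∀ k < m + H, x.coeff k = y.coeff k) :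
    ∃ F : ℕ → ℕ, Primrec F ∧ ∀ ψ : Fm, ψ.fv = ∅ → ((∀ n : ℕ → ℕ, Sat (∅ : Set ℕ) ψ n) ↔
      ∃ χ : Fm, χ.code = F ψ.code ∧ χ.fv = ∅ ∧ ∀ v, Sat P χ v) := by
  classical
  obtain ⟨φ2, hφ2⟩ := df_CodR (P := P) (R := fun z u => Sat P φ (update u 0 z)) (df_sat φ) C
  refine arith_of_vals φ2 fun a m ha hm => ?_
  obtain ⟨A, rfl⟩ := Int.eq_ofNat_of_zero_le ha.le
  obtain ⟨M, rfl⟩ := Int.eq_ofNat_of_zero_le hm.le
  obtain ⟨u, m0, hu⟩ := h (A * M + 1)
  set b : LaurentSeries (ZMod p) := HahnSeries.single m0 1 with hb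
  have hb0 : b ≠ 0 := single_ne m0
  have hb1 : b.order = m0 := ord_single m0
  have hbb : ∀ x : LaurentSeries (ZMod p), ∀ k : ℤ, (b * x).coeff k = x.coeff (k - m0) := by
    intro x k
    rw [hb, HahnSeries.coeff_single_mul, one_mul]
  obtain ⟨s, hs⟩ := coded (R := fun z u => Sat P φ (update u 0 z)) (b := b) (u := u) (C := C)
    (N := A * M + 1) (fun i hi => by
      obtain ⟨⟨x, h1, h2, h3⟩, G, hG, hG2⟩ := hu (m0 + i) (by omega) (by omega)
      refine ⟨G.image fun y => HahnSeries.single (-m0) 1 * y, card_image_le.trans hG, ?_, ?_⟩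
      · refine ⟨HahnSeries.single (-m0) 1 * x, ?_, mul_ne_zero (single_ne _) h2, ?_⟩
        · have : b * (HahnSeries.single (-m0) 1 * x) = x := by
            rw [← mul_assoc, hb, HahnSeries.single_mul_single, add_neg_cancel, one_mul,
              HahnSeries.single_zero_one, one_mul]
          change Sat P φ (update u 0 (b * (HahnSeries.single (-m0) 1 * x)))
          rw [this]
          exact h1
        · rw [Pool.Agent.Y748.UF.ord_mul (single_ne _) h2, ord_single, h3]
          ring
      · intro x h4 h5 h6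
        obtain ⟨y, hy, h7⟩ := hG2 (b * x) h4 (mul_ne_zero hb0 h5) (by
          rw [Pool.Agent.Y748.UF.ord_mul hb0 h5, hb1, h6])
        refine ⟨_, mem_image_of_mem _ hy, ?_⟩
        refine ⟨HahnSeries.single (-((A * M + 1 : ℕ) : ℤ)) 1 *
          (x - HahnSeries.single (-m0) 1 * y), ?_, ?_⟩
        · rw [Pool.Agent.Y155.UF.mem_OO]
          intro n hn
          rw [HahnSeries.coeff_single_mul, one_mul, HahnSeries.coeff_sub,
            HahnSeries.coeff_single_mul, one_mul]
          have h8 := h7 (n + ((A * M + 1 : ℕ) : ℤ) + m0) (by omega)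
          rw [hbb] at h8
          rw [sub_neg_eq_add, sub_neg_eq_add, ← h8]
          rw [show n + ((A * M + 1 : ℕ) : ℤ) + m0 - m0 = n + ((A * M + 1 : ℕ) : ℤ) by ring,
            sub_self]
        · rw [← mul_assoc, HahnSeries.single_mul_single, add_neg_cancel, one_mul,
            HahnSeries.single_zero_one, one_mul]) {i | ∃ j : ℕ, i = A * j}
  let u' : ℕ → LaurentSeries (ZMod p) := fun n =>
    if n = 1 then s else if n = 2 then b else
      if n = 3 then HahnSeries.single ((A * M + 1 : ℕ) : ℤ) 1 else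
      if n = 4 then tt p else u (n - 5)
  have hu' : ∀ z, (Sat P φ2 (update u' 0 z) ↔
      CodR (fun z u => Sat P φ (update u 0 z)) C z s b
        (HahnSeries.single ((A * M + 1 : ℕ) : ℤ) 1) (tt p) u) := by
    intro z
    rw [hφ2]
    have e : (fun n => update u' 0 z (n + 5)) = u := by
      funext n
      rw [update_of_ne (by omega)]
      simp only [u']
      rw [if_neg (by omega), if_neg (by omega), if_neg (by omega), if_neg (by omega)]
      congr 1
    change CodR (fun z u => Sat P φ (update u 0 z)) C (update u' 0 z 0) (update u' 0 z 1)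
      (update u' 0 z 2) (update u' 0 z 3) (update u' 0 z 4) (fun n => update u' 0 z (n + 5)) ↔ _
    rw [e, update_self, update_of_ne (by omega), update_of_ne (by omega), update_of_ne (by omega),
      update_of_ne (by omega)]
    exact Iff.rfl
  refine ⟨u', 0, ?_⟩
  ext n
  constructor
  · rintro ⟨⟨z, h1, h2, h3⟩, h4, h5⟩
    obtain ⟨i, h6, ⟨j, h7⟩, h8⟩ := (hs n).1 ⟨z, (hu' z).1 h1, h2, h3⟩
    refine ⟨j, by omega, ?_, ?_⟩
    · by_contra hc
      have h9 : M + 1 ≤ j := by
        push Not at hc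
        exact_mod_cast hc
      have h10 : A * (M + 1) ≤ A * j := Nat.mul_le_mul_left _ h9
      have hA : 0 < A := by exact_mod_cast ha
      rw [mul_add] at h10
      omega
    · rw [h8, h7]
      push_cast
      ring
  · rintro ⟨i, h1, h2, rfl⟩
    obtain ⟨j, rfl⟩ := Int.eq_ofNat_of_zero_le h1
    have hjM : j ≤ M := by exact_mod_cast h2
    have h3 : A * j ≤ A * M := Nat.mul_le_mul_left _ hjM
    obtain ⟨z, h4, h5, h6⟩ := (hs ((A * j : ℕ) : ℤ)).2 ⟨A * j, by omega, ⟨j, rfl⟩, rfl⟩
    refine ⟨⟨z, (hu' z).2 h4, h5, ?_⟩, ?_, ?_⟩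
    · rw [h6]
      push_cast
      ring
    · have : (0 : ℤ) ≤ (A : ℤ) * j := by positivity
      linarith
    · have : ((A : ℤ) * j) ≤ A * M := by exact_mod_cast h3
      linarith

end Pool.Agent.K9h38.VG
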