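import Pool.Agent.K9h38.VG.Fin

/-! # Approximate sections with gaps -/

set_option autoImplicit false

namespace Pool.Agent.K9h38.VG

open Function Pool.Agent.Y924.EL Pool.Agent.Y924.UF Finset

variable {p : ℕ} [Fact p.Prime] {P : Set (LaurentSeries (ZMod p))}

/-- the union of the sets `τ ^ j X`, `j < g` -/
def GapR (R : LaurentSeries (ZMod p) → (ℕ → LaurentSeries (ZMod p)) → Prop) (g : ℕ)
    (x τ : LaurentSeries (ZMod p)) (u : ℕ → LaurentSeries (ZMod p)) : Prop :=
  ∃ j, j < g ∧ ∃ x', R x' u ∧ x = τ ^ j * x'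

theorem df_GapR {R : LaurentSeries (ZMod p) → (ℕ → LaurentSeries (ZMod p)) → Prop}
    (hR : Df P (fun w => R (w 0) (fun n => w (n + 1)))) (g : ℕ) :
    Df P (fun w => GapR R g (w 0) (w 1) (fun n => w (n + 2))) := by
  refine Df.ex_lt g fun j _ => ?_
  refine Df.ex1 (R := fun x' w => R x' (fun n => w (n + 2)) ∧ w 0 = w 1 ^ j * x') ?_
  exact (df_R hR (DFn.var 0) (fun n => n + 3)).and
    (Df.eq (DFn.var 1) (((DFn.var 2).pow j).mul (DFn.var 0)))

theorem arith_of_gaps (φ : Fm) (C g : ℕ)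
    (h : ∀ H : ℕ, ∃ (u : ℕ → LaurentSeries (ZMod p)) (m : ℤ),
      (∀ i : ℤ, m ≤ i → i < m + H → ∃ G : Finset (LaurentSeries (ZMod p)), G.card ≤ C ∧
        ∀ x, Sat P φ (update u 0 x) → x ≠ 0 → x.order = i →
          ∃ y ∈ G, ∀ k < m + H, x.coeff k = y.coeff k) ∧
      ∀ i : ℤ, m ≤ i → i + g ≤ m + H → ∃ j : ℤ, i ≤ j ∧ j < i + g ∧
        ∃ x, Sat P φ (update u 0 x) ∧ x ≠ 0 ∧ x.order = j) :
    ∃ F : ℕ → ℕ, Primrec F ∧ ∀ ψ : Fm, ψ.fv = ∅ → ((∀ n : ℕ → ℕ, Sat (∅ : Set ℕ) ψ n) ↔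
      ∃ χ : Fm, χ.code = F ψ.code ∧ χ.fv = ∅ ∧ ∀ v, Sat P χ v) := by
  classical
  obtain ⟨φ2, hφ2⟩ := df_GapR (P := P) (R := fun z u => Sat P φ (update u 0 z)) (df_sat φ) g
  refine arith_of_sections φ2 (g * C) fun H => ?_
  obtain ⟨u, m, h1, h2⟩ := h (H + g)
  let u' : ℕ → LaurentSeries (ZMod p) := fun n => if n = 1 then tt p else u (n - 2)
  have hu' : ∀ z, (Sat P φ2 (update u' 0 z) ↔
      GapR (fun z u => Sat P φ (update u 0 z)) g z (tt p) u) := by
    intro z
    rw [hφ2]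
    have e : (fun n => update u' 0 z (n + 2)) = u := by
      funext n
      rw [update_of_ne (by omega)]
      simp only [u']
      rw [if_neg (by omega)]
      congr 1
    change GapR (fun z u => Sat P φ (update u 0 z)) g (update u' 0 z 0) (update u' 0 z 1)
      (fun n => update u' 0 z (n + 2)) ↔ _
    rw [e, update_self, update_of_ne (by omega)]
    exact Iff.rfl
  have ht0 : tt p ≠ 0 := single_ne 1
  have ht1 : ∀ j : ℕ, (tt p ^ j).order = j := by
    intro j
    rw [Pool.Agent.Y748.UF.ord_pow ht0, show (tt p).order = 1 from ord_single 1, mul_one]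
  have ht2 : ∀ (j : ℕ) (x : LaurentSeries (ZMod p)) (k : ℤ),
      (tt p ^ j * x).coeff k = x.coeff (k - j) := by
    intro j x k
    rw [tt, HahnSeries.single_pow, one_pow, HahnSeries.coeff_single_mul, one_mul]
    congr 2
    simp
  choose G hG using h1
  refine ⟨u', m + g, fun i hi1 hi2 => ⟨?_, ?_⟩⟩
  · have hg : 0 < g := by
      rcases Nat.eq_zero_or_pos g with h0 | h0
      · subst h0
        obtain ⟨j, h3, h4, -⟩ := h2 m le_rfl (by push_cast; omega)
        omega
      · exact h0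
    obtain ⟨j, h3, h4, x, h5, h6, h7⟩ := h2 (i - g + 1) (by omega) (by push_cast; omega)
    obtain ⟨l, hl⟩ := Int.eq_ofNat_of_zero_le (show 0 ≤ i - j by omega)
    refine ⟨tt p ^ l * x, (hu' _).2 ⟨l, by omega, x, h5, rfl⟩, mul_ne_zero (pow_ne_zero _ ht0) h6,
      ?_⟩
    rw [Pool.Agent.Y748.UF.ord_mul (pow_ne_zero _ ht0) h6, ht1, h7]
    omega
  · let G' : ℕ → Finset (LaurentSeries (ZMod p)) := fun j =>
      if hj : j < g then (G (i - j) (by omega) (by push_cast; omega)).image fun y => tt p ^ j * y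
      else ∅
    refine ⟨(range g).biUnion G', ?_, fun x hx hx0 hxi => ?_⟩
    · refine (card_biUnion_le_card_mul _ _ C fun j hj => ?_).trans (by rw [card_range])
      have hj' : j < g := by simpa using hj
      simp only [G', dif_pos hj']
      exact card_image_le.trans (hG _ _ _).1
    · obtain ⟨j, hj, x', hx', rfl⟩ := (hu' x).1 hx
      have hx'0 : x' ≠ 0 := right_ne_zero_of_mul hx0
      rw [Pool.Agent.Y748.UF.ord_mul (pow_ne_zero _ ht0) hx'0, ht1] at hxi
      obtain ⟨y, hy, hyk⟩ := (hG (i - j) (by omega) (by push_cast; omega)).2 x' hx' hx'0 (by omega)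
      refine ⟨tt p ^ j * y, ?_, fun k hk => ?_⟩
      · rw [mem_biUnion]
        refine ⟨j, by simpa using hj, ?_⟩
        simp only [G', dif_pos hj]
        exact mem_image_of_mem _ hy
      · rw [ht2, ht2]
        exact hyk _ (by push_cast; omega)

end Pool.Agent.K9h38.VG
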