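import Pool.Agent.K9h38.VG.Df
import Pool.Agent.Y286.UF.TFV
import Pool.Agent.Y900.UF.Rec
import Pool.Agent.Y988.UF.Halt

/-! # Interpretations of arithmetic -/

set_option autoImplicit false

namespace Pool.Agent.K9h38.VG

open Function Pool.Agent.Y924.EL Pool.Agent.Y924.UF

variable {K : Type} [CommRing K]

/-- the basic formula `φ (x_0, x_1, x_2)` for the variables of number `i`, `j`, `k` -/
def ins (B : ℕ) (φ : Fm) (i j k : ℕ) : Fm :=
  .ex 0 (.and (.eq 0 (B + i)) (.ex 1 (.and (.eq 1 (B + j)) (.ex 2 (.and (.eq 2 (B + k)) φ)))))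

/-- translation of the formulas of arithmetic -/
def tr (B : ℕ) (fN fE fO fA fM : Fm) : Fm → Fm
  | .eq i j => ins B fE i j j
  | .one i => ins B fO i i i
  | .add i j k => ins B fA i j k
  | .mul i j k => ins B fM i j k
  | .val _ => .ex 0 (.neg (.eq 0 0))
  | .neg ψ => .neg (tr B fN fE fO fA fM ψ)
  | .and ψ χ => .and (tr B fN fE fO fA fM ψ) (tr B fN fE fO fA fM χ)
  | .ex i ψ => .ex (B + i) (.and (ins B fN i i i) (tr B fN fE fO fA fM ψ))

theorem sat_ins (P : Set K) {B : ℕ} (hB : 3 ≤ B) {φ : Fm} {R : K → K → K → Prop}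
    (h : ∀ v, Sat P φ v ↔ R (v 0) (v 1) (v 2)) (i j k : ℕ) (v : ℕ → K) :
    Sat P (ins B φ i j k) v ↔ R (v (B + i)) (v (B + j)) (v (B + k)) := by
  simp only [ins, Sat, h]
  constructor
  · rintro ⟨a, h1, b, h2, c, h3, h4⟩
    rw [update_self, update_of_ne (by omega)] at h1
    rw [update_self, update_of_ne (by omega), update_of_ne (by omega)] at h2
    rw [update_self, update_of_ne (by omega), update_of_ne (by omega),
      update_of_ne (by omega)] at h3
    rw [update_self, update_of_ne (by omega), update_of_ne (by omega), update_self,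
      update_of_ne (by omega), update_self] at h4
    rw [← h1, ← h2, ← h3]
    exact h4
  · intro h4
    refine ⟨v (B + i), ?_, v (B + j), ?_, v (B + k), ?_, ?_⟩
    · rw [update_self, update_of_ne (by omega)]
    · rw [update_self, update_of_ne (by omega), update_of_ne (by omega)]
    · rw [update_self, update_of_ne (by omega), update_of_ne (by omega),
        update_of_ne (by omega)]
    · rw [update_self, update_of_ne (by omega), update_of_ne (by omega), update_self,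
        update_of_ne (by omega), update_self]
      exact h4

theorem fv_ins {B : ℕ} {φ : Fm} (h : ∀ x ∈ φ.fv, x < 3) {i j k x : ℕ}
    (hx : x ∈ (ins B φ i j k).fv) : x = B + i ∨ x = B + j ∨ x = B + k := by
  simp only [ins, Fm.fv, Finset.mem_erase, Finset.mem_union, Finset.mem_insert,
    Finset.mem_singleton] at hx
  rcases hx with ⟨h0, (rfl | rfl) | ⟨h1, (rfl | rfl) | ⟨h2, (rfl | rfl) | h3⟩⟩⟩
  · exact absurd rfl h0
  · exact Or.inl rfl
  · exact absurd rfl h1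
  · exact Or.inr (Or.inl rfl)
  · exact absurd rfl h2
  · exact Or.inr (Or.inr rfl)
  · have := h x h3
    omega

/-- a definable relation between three elements has a formula with the free variables
`x_0, x_1, x_2` -/
theorem closeF {P : Set K} {R : K → K → K → Prop} (h : Df P (fun v => R (v 0) (v 1) (v 2))) :
    ∃ φ : Fm, (∀ x ∈ φ.fv, x < 3) ∧ ∀ v, Sat P φ v ↔ R (v 0) (v 1) (v 2) := by
  obtain ⟨φ, h⟩ := h
  obtain ⟨V, hV⟩ := Pool.Agent.Y686.UF.t_CLO.1 φ
  refine ⟨exR 3 V φ, fun x hx => ?_, fun v => ?_⟩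
  · obtain ⟨h1, h2⟩ := Pool.Agent.Y286.UF.fv_exR 3 φ V hx
    have h3 := Pool.Agent.Y686.UF.below_fv V φ (hV V le_rfl) x h1
    by_contra hc
    exact h2 ⟨by omega, by omega⟩
  · rw [Pool.Agent.Y151.UF.t_EXR K P 3 V]
    constructor
    · rintro ⟨w, hw, h1⟩
      have h2 : R (w 0) (w 1) (w 2) := (h w).1 h1
      rw [hw 0 (Or.inl (by omega)), hw 1 (Or.inl (by omega)), hw 2 (Or.inl (by omega))] at h2
      exact h2
    · intro h1
      exact ⟨v, fun _ _ => rfl, (h v).2 h1⟩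

theorem prim_tr (B : ℕ) (fN fE fO fA fM : Fm) : ∃ F : ℕ → ℕ, Primrec F ∧
    ∀ ψ : Fm, F ψ.code = (tr B fN fE fO fA fM ψ).code := by
  have P1 : Primrec fun m : ℕ => m.unpair.1 := Primrec.fst.comp Primrec.unpair
  have P2 : Primrec fun m : ℕ => m.unpair.2 := Primrec.snd.comp Primrec.unpair
  have hpair : ∀ f g : ℕ → ℕ, Primrec f → Primrec g → Primrec fun m => Nat.pair (f m) (g m) :=
    fun f g hf hg => Primrec₂.natPair.comp hf hg
  have hB : ∀ f : ℕ → ℕ, Primrec f → Primrec fun m => B + f m :=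
    fun f hf => Primrec.nat_add.comp (Primrec.const B) hf
  have hc : ∀ n : ℕ, Primrec fun _ : ℕ => n := fun n => Primrec.const n
  have hins : ∀ (φ : Fm) (f g h : ℕ → ℕ), Primrec f → Primrec g → Primrec h →
      Primrec fun m => (ins B φ (f m) (g m) (h m)).code := by
    intro φ f g h hf hg hh
    simp only [ins, Fm.code]
    have e : ∀ (n : ℕ) (k : ℕ → ℕ), Primrec k →
        Primrec fun m => Nat.pair 0 (Nat.pair n (B + k m)) := fun n k hk =>
      hpair _ _ (hc 0) (hpair _ _ (hc n) (hB k hk))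
    refine hpair _ _ (hc 7) (hpair _ _ (hc 0) (hpair _ _ (hc 6) (hpair _ _ (e 0 f hf) ?_)))
    refine hpair _ _ (hc 7) (hpair _ _ (hc 1) (hpair _ _ (hc 6) (hpair _ _ (e 1 g hg) ?_)))
    exact hpair _ _ (hc 7) (hpair _ _ (hc 2) (hpair _ _ (hc 6) (hpair _ _ (e 2 h hh) (hc _))))
  have P21 : Primrec fun m : ℕ => m.unpair.2.unpair.1 := Primrec.fst.comp (Primrec.unpair.comp P2)
  have P22 : Primrec fun m : ℕ => m.unpair.2.unpair.2 := Primrec.snd.comp (Primrec.unpair.comp P2)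
  have hg7 : Primrec fun m : ℕ => Nat.pair 7 (Nat.pair (B + m.unpair.1) (Nat.pair 6 (Nat.pair
      (ins B fN m.unpair.1 m.unpair.1 m.unpair.1).code m.unpair.2))) :=
    hpair _ _ (hc 7) (hpair _ _ (hB _ P1) (hpair _ _ (hc 6) (hpair _ _
      (hins fN _ _ _ P1 P1 P1) P2)))
  obtain ⟨F, hF, h0, h1, h2, h3, h4, h5, h6, h7⟩ := Pool.Agent.Y900.UF.t_REC _ _ _ _ _ _
    (hins fE _ _ _ P1 P2 P2) (hins fO _ _ _ Primrec.id Primrec.id Primrec.id)
    (hins fA _ _ _ P1 P21 P22) (hins fM _ _ _ P1 P21 P22)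
    (hc (Fm.ex 0 (.neg (.eq 0 0))).code) hg7
  refine ⟨F, hF, fun ψ => ?_⟩
  induction ψ with
  | eq i j =>
    change F (Nat.pair 0 (Nat.pair i j)) = _
    rw [h0]
    simp only [Nat.unpair_pair]
    rfl
  | one i =>
    change F (Nat.pair 1 i) = _
    rw [h1]
    rfl
  | add i j k =>
    change F (Nat.pair 2 (Nat.pair i (Nat.pair j k))) = _
    rw [h2]
    simp only [Nat.unpair_pair]
    rfl
  | mul i j k =>
    change F (Nat.pair 3 (Nat.pair i (Nat.pair j k))) = _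
    rw [h3]
    simp only [Nat.unpair_pair]
    rfl
  | val i =>
    change F (Nat.pair 4 i) = _
    rw [h4]
    rfl
  | neg ψ ih =>
    change F (Nat.pair 5 ψ.code) = Nat.pair 5 (tr B fN fE fO fA fM ψ).code
    rw [h5, ih]
  | and ψ χ ih1 ih2 =>
    change F (Nat.pair 6 (Nat.pair ψ.code χ.code)) =
      Nat.pair 6 (Nat.pair (tr B fN fE fO fA fM ψ).code (tr B fN fE fO fA fM χ).code)
    rw [h6, ih1, ih2]
  | ex i ψ ih =>
    change F (Nat.pair 7 (Nat.pair i ψ.code)) = _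
    rw [h7, ih]
    simp only [Nat.unpair_pair]
    rfl

theorem fv_tr {B : ℕ} {fN fE fO fA fM : Fm} (hN : ∀ x ∈ fN.fv, x < 3) (hE : ∀ x ∈ fE.fv, x < 3)
    (hO : ∀ x ∈ fO.fv, x < 3) (hA : ∀ x ∈ fA.fv, x < 3) (hM : ∀ x ∈ fM.fv, x < 3) (ψ : Fm) :
    ∀ x ∈ (tr B fN fE fO fA fM ψ).fv, ∃ i ∈ ψ.fv, x = B + i := by
  induction ψ with
  | eq i j =>
    intro x hx
    rcases fv_ins hE hx with h | h | h
    · exact ⟨i, by simp [Fm.fv], h⟩
    · exact ⟨j, by simp [Fm.fv], h⟩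
    · exact ⟨j, by simp [Fm.fv], h⟩
  | one i =>
    intro x hx
    rcases fv_ins hO hx with h | h | h <;> exact ⟨i, by simp [Fm.fv], h⟩
  | add i j k =>
    intro x hx
    rcases fv_ins hA hx with h | h | h
    · exact ⟨i, by simp [Fm.fv], h⟩
    · exact ⟨j, by simp [Fm.fv], h⟩
    · exact ⟨k, by simp [Fm.fv], h⟩
  | mul i j k =>
    intro x hx
    rcases fv_ins hM hx with h | h | h
    · exact ⟨i, by simp [Fm.fv], h⟩
    · exact ⟨j, by simp [Fm.fv], h⟩
    · exact ⟨k, by simp [Fm.fv], h⟩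
  | val i =>
    intro x hx
    simp [tr, Fm.fv] at hx
  | neg ψ ih => exact ih
  | and ψ χ ih1 ih2 =>
    intro x hx
    simp only [tr, Fm.fv, Finset.mem_union] at hx
    rcases hx with hx | hx
    · obtain ⟨i, hi, h⟩ := ih1 x hx
      exact ⟨i, by simp [Fm.fv, hi], h⟩
    · obtain ⟨i, hi, h⟩ := ih2 x hx
      exact ⟨i, by simp [Fm.fv, hi], h⟩
  | ex i ψ ih =>
    intro x hx
    simp only [tr, Fm.fv, Finset.mem_erase, Finset.mem_union] at hx
    obtain ⟨h0, hx | hx⟩ := hx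
    · rcases fv_ins hN hx with h | h | h <;> exact absurd h h0
    · obtain ⟨j, hj, rfl⟩ := ih x hx
      refine ⟨j, ?_, rfl⟩
      simp only [Fm.fv, Finset.mem_erase]
      exact ⟨fun h => h0 (by rw [h]), hj⟩

/-- an interpretation of arithmetic on a quotient of a definable set gives a reduction of the theory
of arithmetic -/
theorem interp {P : Set K} {N : K → Prop} {E : K → K → Prop} {O : K → Prop}
    {A M : K → K → K → Prop} (ν : K → ℕ)
    (dN : Df P (fun v => N (v 0))) (dE : Df P (fun v => E (v 0) (v 1)))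
    (dO : Df P (fun v => O (v 0))) (dA : Df P (fun v => A (v 0) (v 1) (v 2)))
    (dM : Df P (fun v => M (v 0) (v 1) (v 2)))
    (hE : ∀ x y, N x → N y → (E x y ↔ ν x = ν y)) (hO : ∀ x, N x → (O x ↔ ν x = 1))
    (hA : ∀ x y z, N x → N y → N z → (A x y z ↔ ν x + ν y = ν z))
    (hM : ∀ x y z, N x → N y → N z → (M x y z ↔ ν x * ν y = ν z))
    (hs : ∀ n : ℕ, ∃ x, N x ∧ ν x = n) :
    ∃ F : ℕ → ℕ, Primrec F ∧ ∀ ψ : Fm, ψ.fv = ∅ → ((∀ n : ℕ → ℕ, Sat (∅ : Set ℕ) ψ n) ↔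
      ∃ χ : Fm, χ.code = F ψ.code ∧ χ.fv = ∅ ∧ ∀ v, Sat P χ v) := by
  obtain ⟨fN, vN, sN⟩ := closeF (R := fun a _ _ => N a) dN
  obtain ⟨fE, vE, sE⟩ := closeF (R := fun a b _ => E a b) dE
  obtain ⟨fO, vO, sO⟩ := closeF (R := fun a _ _ => O a) dO
  obtain ⟨fA, vA, sA⟩ := closeF (R := A) dA
  obtain ⟨fM, vM, sM⟩ := closeF (R := M) dM
  obtain ⟨F, hF, hF2⟩ := prim_tr 3 fN fE fO fA fM
  have tE : ∀ (i j k : ℕ) (v : ℕ → K), Sat P (ins 3 fE i j k) v ↔ E (v (3 + i)) (v (3 + j)) :=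
    fun i j k v => sat_ins P le_rfl (R := fun a b _ => E a b) sE i j k v
  have tO : ∀ (i j k : ℕ) (v : ℕ → K), Sat P (ins 3 fO i j k) v ↔ O (v (3 + i)) :=
    fun i j k v => sat_ins P le_rfl (R := fun a _ _ => O a) sO i j k v
  have tN : ∀ (i j k : ℕ) (v : ℕ → K), Sat P (ins 3 fN i j k) v ↔ N (v (3 + i)) :=
    fun i j k v => sat_ins P le_rfl (R := fun a _ _ => N a) sN i j k v
  have key : ∀ (ψ : Fm) (v : ℕ → K) (n : ℕ → ℕ),
      (∀ i ∈ ψ.fv, N (v (3 + i)) ∧ ν (v (3 + i)) = n i) →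
      (Sat P (tr 3 fN fE fO fA fM ψ) v ↔ Sat (∅ : Set ℕ) ψ n) := by
    intro ψ
    induction ψ with
    | eq i j =>
      intro v n h
      obtain ⟨a1, a2⟩ := h i (by simp [Fm.fv])
      obtain ⟨b1, b2⟩ := h j (by simp [Fm.fv])
      rw [tr, tE, hE _ _ a1 b1, a2, b2]
      rfl
    | one i =>
      intro v n h
      obtain ⟨a1, a2⟩ := h i (by simp [Fm.fv])
      rw [tr, tO, hO _ a1, a2]
      rfl
    | add i j k =>
      intro v n h
      obtain ⟨a1, a2⟩ := h i (by simp [Fm.fv])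
      obtain ⟨b1, b2⟩ := h j (by simp [Fm.fv])
      obtain ⟨c1, c2⟩ := h k (by simp [Fm.fv])
      rw [tr, sat_ins P le_rfl sA, hA _ _ _ a1 b1 c1, a2, b2, c2]
      rfl
    | mul i j k =>
      intro v n h
      obtain ⟨a1, a2⟩ := h i (by simp [Fm.fv])
      obtain ⟨b1, b2⟩ := h j (by simp [Fm.fv])
      obtain ⟨c1, c2⟩ := h k (by simp [Fm.fv])
      rw [tr, sat_ins P le_rfl sM, hM _ _ _ a1 b1 c1, a2, b2, c2]
      rfl
    | val i =>
      intro v n h
      simp [tr, Sat]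
    | neg ψ ih =>
      intro v n h
      exact not_congr (ih v n h)
    | and ψ χ ih1 ih2 =>
      intro v n h
      exact and_congr (ih1 v n fun i hi => h i (by simp [Fm.fv, hi]))
        (ih2 v n fun i hi => h i (by simp [Fm.fv, hi]))
    | ex i ψ ih =>
      intro v n h
      have h1 : ∀ a : K, N a → (∀ j ∈ ψ.fv, N (update v (3 + i) a (3 + j)) ∧
          ν (update v (3 + i) a (3 + j)) = update n i (ν a) j) := by
        intro a ha j hj
        by_cases hji : j = i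
        · subst hji
          rw [update_self, update_self]
          exact ⟨ha, rfl⟩
        · rw [update_of_ne (by omega), update_of_ne hji]
          exact h j (by simp [Fm.fv, hj, hji])
      change (∃ a, Sat P (ins 3 fN i i i) (update v (3 + i) a) ∧
        Sat P (tr 3 fN fE fO fA fM ψ) (update v (3 + i) a)) ↔
        ∃ m, Sat (∅ : Set ℕ) ψ (update n i m)
      constructor
      · rintro ⟨a, h2, h3⟩
        rw [tN, update_self] at h2
        exact ⟨ν a, (ih _ _ (h1 a h2)).1 h3⟩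
      · rintro ⟨m, h3⟩
        obtain ⟨a, ha, rfl⟩ := hs m
        refine ⟨a, ?_, (ih _ _ (h1 a ha)).2 h3⟩
        rw [tN, update_self]
        exact ha
  refine ⟨F, hF, fun ψ hψ => ?_⟩
  have h1 : ∀ (v : ℕ → K) (n : ℕ → ℕ),
      (Sat P (tr 3 fN fE fO fA fM ψ) v ↔ Sat (∅ : Set ℕ) ψ n) :=
    fun v n => key ψ v n fun i hi => by simp [hψ] at hi
  constructor
  · intro h
    refine ⟨_, (hF2 ψ).symm, ?_, fun v => (h1 v 0).2 (h 0)⟩
    refine Finset.eq_empty_of_forall_notMem fun x hx => ?_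
    obtain ⟨i, hi, -⟩ := fv_tr vN vE vO vA vM ψ x hx
    simp [hψ] at hi
  · rintro ⟨χ, h2, -, h3⟩ n
    have h4 : χ = tr 3 fN fE fO fA fM ψ := Pool.Agent.Y988.UF.t_CINJ _ _ (h2.trans (hF2 ψ))
    rw [h4] at h3
    exact (h1 0 n).1 (h3 0)

end Pool.Agent.K9h38.VG
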