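import Pool.Agent.K9h38.VG.Fin

/-! # Definable sets with linear growth -/

set_option autoImplicit false

namespace Pool.Agent.K9h38.VG

open Function Pool.Agent.Y924.EL Pool.Agent.Y924.UF Finset

variable {p : ℕ} [Fact p.Prime] {P : Set (LaurentSeries (ZMod p))}

/-- the elements of the set with the valuation of `w` are in at most `K` classes modulo `y` -/
def Aw (R : LaurentSeries (ZMod p) → (ℕ → LaurentSeries (ZMod p)) → Prop) (K : ℕ)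
    (b y w : LaurentSeries (ZMod p)) (u : ℕ → LaurentSeries (ZMod p)) : Prop :=
  ∃ f : ℕ → LaurentSeries (ZMod p), ∀ x, R (b * x) u → x ≠ 0 → Eqv x w →
    ∃ l, l < K ∧ Le y (x - f l)

/-- the products of two elements with few classes, with the least possible valuation of the
first one -/
def Pr (R : LaurentSeries (ZMod p) → (ℕ → LaurentSeries (ZMod p)) → Prop) (K : ℕ)
    (z b e y : LaurentSeries (ZMod p)) (u : ℕ → LaurentSeries (ZMod p)) : Prop :=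
  ∃ x, x ≠ 0 ∧ ∃ x', x' ≠ 0 ∧ z = x * x' ∧ R (b * x) u ∧ R (b * x') u ∧ Le e x ∧ Le e x' ∧
    Aw R K b y x u ∧ Aw R K b y x' u ∧
    ∀ w, w ≠ 0 → ∀ w', w' ≠ 0 → Eqv (w * w') z → Le e w → Le e w' → Aw R K b y w u →
      Aw R K b y w' u → Le x w

variable {R : LaurentSeries (ZMod p) → (ℕ → LaurentSeries (ZMod p)) → Prop}

theorem df_Aw (hR : Df P (fun w => R (w 0) (fun n => w (n + 1)))) (K β υ w : ℕ) (σ : ℕ → ℕ) :
    Df P (fun v => Aw R K (v β) (v υ) (v w) (fun n => v (σ n))) := by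
  refine Df.exs (R := fun v f => ∀ x, R (v β * x) (fun n => v (σ n)) → x ≠ 0 → Eqv x (v w) →
    ∃ l, l < K ∧ Le (v υ) (x - f l)) ?_
  refine Df.all1 (R := fun x v => R (v (2 * β) * x) (fun n => v (2 * σ n)) → x ≠ 0 →
    Eqv x (v (2 * w)) → ∃ l, l < K ∧ Le (v (2 * υ)) (x - v (2 * l + 1))) ?_
  refine (df_R hR ((DFn.var (2 * β + 1)).mul (DFn.var 0)) (fun n => 2 * σ n + 1)).imp
    ((Df.ne (DFn.var 0) DFn.zero).imp ((df_Eqv (DFn.var 0) (DFn.var (2 * w + 1))).imp ?_))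
  exact Df.ex_lt K fun l _ => df_Le (DFn.var (2 * υ + 1)) ((DFn.var 0).sub' (DFn.var (2 * l + 1 + 1)))

theorem df_Pr (hR : Df P (fun w => R (w 0) (fun n => w (n + 1)))) (K : ℕ) :
    Df P (fun v => Pr R K (v 0) (v 1) (v 2) (v 3) (fun n => v (n + 4))) := by
  refine Df.ex1 (R := fun x v => x ≠ 0 ∧ ∃ x', x' ≠ 0 ∧ v 0 = x * x' ∧
    R (v 1 * x) (fun n => v (n + 4)) ∧ R (v 1 * x') (fun n => v (n + 4)) ∧ Le (v 2) x ∧
    Le (v 2) x' ∧ Aw R K (v 1) (v 3) x (fun n => v (n + 4)) ∧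
    Aw R K (v 1) (v 3) x' (fun n => v (n + 4)) ∧
    ∀ w, w ≠ 0 → ∀ w', w' ≠ 0 → Eqv (w * w') (v 0) → Le (v 2) w → Le (v 2) w' →
      Aw R K (v 1) (v 3) w (fun n => v (n + 4)) → Aw R K (v 1) (v 3) w' (fun n => v (n + 4)) →
      Le x w) ?_
  refine (Df.ne (DFn.var 0) DFn.zero).and ?_
  refine Df.ex1 (R := fun x' v => x' ≠ 0 ∧ v 1 = v 0 * x' ∧
    R (v 2 * v 0) (fun n => v (n + 5)) ∧ R (v 2 * x') (fun n => v (n + 5)) ∧ Le (v 3) (v 0) ∧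
    Le (v 3) x' ∧ Aw R K (v 2) (v 4) (v 0) (fun n => v (n + 5)) ∧
    Aw R K (v 2) (v 4) x' (fun n => v (n + 5)) ∧
    ∀ w, w ≠ 0 → ∀ w', w' ≠ 0 → Eqv (w * w') (v 1) → Le (v 3) w → Le (v 3) w' →
      Aw R K (v 2) (v 4) w (fun n => v (n + 5)) → Aw R K (v 2) (v 4) w' (fun n => v (n + 5)) →
      Le (v 0) w) ?_
  refine (Df.ne (DFn.var 0) DFn.zero).and ((Df.eq (DFn.var 2) ((DFn.var 1).mul (DFn.var 0))).and
    ((df_R hR ((DFn.var 3).mul (DFn.var 1)) (fun n => n + 6)).and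
    ((df_R hR ((DFn.var 3).mul (DFn.var 0)) (fun n => n + 6)).and
    ((df_Le (DFn.var 4) (DFn.var 1)).and ((df_Le (DFn.var 4) (DFn.var 0)).and
    ((df_Aw hR K 3 5 1 (fun n => n + 6)).and ((df_Aw hR K 3 5 0 (fun n => n + 6)).and ?_)))))))
  refine Df.all1 (R := fun w v => w ≠ 0 → ∀ w', w' ≠ 0 → Eqv (w * w') (v 2) → Le (v 4) w →
      Le (v 4) w' → Aw R K (v 3) (v 5) w (fun n => v (n + 6)) →
      Aw R K (v 3) (v 5) w' (fun n => v (n + 6)) → Le (v 1) w) ?_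
  refine (Df.ne (DFn.var 0) DFn.zero).imp ?_
  refine Df.all1 (R := fun w' v => w' ≠ 0 → Eqv (v 0 * w') (v 3) → Le (v 5) (v 0) →
      Le (v 5) w' → Aw R K (v 4) (v 6) (v 0) (fun n => v (n + 7)) →
      Aw R K (v 4) (v 6) w' (fun n => v (n + 7)) → Le (v 2) (v 0)) ?_
  exact (Df.ne (DFn.var 0) DFn.zero).imp ((df_Eqv ((DFn.var 1).mul (DFn.var 0)) (DFn.var 4)).imp
    ((df_Le (DFn.var 6) (DFn.var 1)).imp ((df_Le (DFn.var 6) (DFn.var 0)).imp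
    ((df_Aw hR K 5 7 1 (fun n => n + 8)).imp ((df_Aw hR K 5 7 0 (fun n => n + 8)).imp
    (df_Le (DFn.var 3) (DFn.var 1)))))))

end Pool.Agent.K9h38.VG
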