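import Pool.Agent.K9h38.VG.Val
import Pool.Agent.K9h38.VG.Itp

/-! # Arithmetic progressions in definable sets of valuations -/

set_option autoImplicit false

namespace Pool.Agent.K9h38.VG

open Function Pool.Agent.Y924.EL Pool.Agent.Y924.UF

variable {p : ℕ} [Fact p.Prime] {P : Set (LaurentSeries (ZMod p))}

/-- the valuations of the nonzero elements -/
def Vals (S : Set (LaurentSeries (ZMod p))) : Set ℤ := {n | ∃ x ∈ S, x ≠ 0 ∧ x.order = n}

/-- divisibility of valuations, by sets of valuations in the family `R` -/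
def DvR (R : LaurentSeries (ZMod p) → (ℕ → LaurentSeries (ZMod p)) → Prop)
    (x y : LaurentSeries (ZMod p)) : Prop :=
  Eqv y 1 ∨ ∃ u : ℕ → LaurentSeries (ZMod p), ∃ e, e ≠ 0 ∧
    (∃ z, R z u ∧ z ≠ 0 ∧ Eqv z (y * e)) ∧
    ∀ z, R z u → z ≠ 0 → Le e z → Le z (y * e) →
      Eqv z e ∨ ∃ z', R z' u ∧ z' ≠ 0 ∧ Le e z' ∧ Eqv (z' * x) z

theorem df_DvR {R : LaurentSeries (ZMod p) → (ℕ → LaurentSeries (ZMod p)) → Prop}
    (hR : Df P (fun w => R (w 0) (fun n => w (n + 1)))) :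
    Df P (fun v => DvR R (v 0) (v 1)) := by
  refine (df_Eqv (DFn.var 1) DFn.one).or ?_
  refine Df.exs (R := fun v u => ∃ e, e ≠ 0 ∧ (∃ z, R z u ∧ z ≠ 0 ∧ Eqv z (v 1 * e)) ∧
    ∀ z, R z u → z ≠ 0 → Le e z → Le z (v 1 * e) →
      Eqv z e ∨ ∃ z', R z' u ∧ z' ≠ 0 ∧ Le e z' ∧ Eqv (z' * v 0) z) ?_
  refine Df.ex1 (R := fun e w => e ≠ 0 ∧
    (∃ z, R z (fun n => w (2 * n + 1)) ∧ z ≠ 0 ∧ Eqv z (w 2 * e)) ∧
    ∀ z, R z (fun n => w (2 * n + 1)) → z ≠ 0 → Le e z → Le z (w 2 * e) →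
      Eqv z e ∨ ∃ z', R z' (fun n => w (2 * n + 1)) ∧ z' ≠ 0 ∧ Le e z' ∧
        Eqv (z' * w 0) z) ?_
  refine (Df.ne (DFn.var 0) DFn.zero).and (Df.and ?_ ?_)
  · refine Df.ex1 (R := fun z w => R z (fun n => w (2 * n + 2)) ∧ z ≠ 0 ∧
      Eqv z (w 3 * w 0)) ?_
    refine (hR.sub (cns 0 fun n => 2 * n + 3)).and ((Df.ne (DFn.var 0) DFn.zero).and ?_)
    exact df_Eqv (DFn.var 0) ((DFn.var 4).mul (DFn.var 1))
  · refine Df.all1 (R := fun z w => R z (fun n => w (2 * n + 2)) → z ≠ 0 → Le (w 0) z →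
      Le z (w 3 * w 0) → Eqv z (w 0) ∨ ∃ z', R z' (fun n => w (2 * n + 2)) ∧ z' ≠ 0 ∧
        Le (w 0) z' ∧ Eqv (z' * w 1) z) ?_
    refine (hR.sub (cns 0 fun n => 2 * n + 3)).imp ((Df.ne (DFn.var 0) DFn.zero).imp
      ((df_Le (DFn.var 1) (DFn.var 0)).imp ((df_Le (DFn.var 0)
        ((DFn.var 4).mul (DFn.var 1))).imp ((df_Eqv (DFn.var 0) (DFn.var 1)).or ?_))))
    refine Df.ex1 (R := fun z' w => R z' (fun n => w (2 * n + 3)) ∧ z' ≠ 0 ∧
      Le (w 1) z' ∧ Eqv (z' * w 2) (w 0)) ?_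
    refine (hR.sub (cns 0 fun n => 2 * n + 4)).and ((Df.ne (DFn.var 0) DFn.zero).and
      ((df_Le (DFn.var 2) (DFn.var 0)).and ?_))
    exact df_Eqv ((DFn.var 0).mul (DFn.var 3)) (DFn.var 1)

theorem dv_isDiv {R : LaurentSeries (ZMod p) → (ℕ → LaurentSeries (ZMod p)) → Prop}
    (hR : ∀ a m : ℤ, 0 < a → 0 < m → ∃ (u : ℕ → LaurentSeries (ZMod p)) (e : ℤ),
      Vals {z | R z u} ∩ Set.Icc e (e + a * m) = {n | ∃ i : ℤ, 0 ≤ i ∧ i ≤ m ∧ n = e + a * i}) :
    IsDiv (DvR R) := by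
  intro x y hx hy hx1
  rw [eqv_iff hx.1 one_ne_zero, ord_one] at hx1
  have hx0 := hx.nonneg
  have hy0 := hy.nonneg
  unfold DvR
  rw [eqv_iff hy.1 one_ne_zero, ord_one]
  have hye : ∀ e : LaurentSeries (ZMod p), e ≠ 0 → y * e ≠ 0 ∧ (y * e).order = y.order + e.order :=
    fun e he => ⟨mul_ne_zero hy.1 he, Pool.Agent.Y748.UF.ord_mul hy.1 he⟩
  constructor
  · rintro (h | ⟨u, e, he, ⟨z, hz1, hz2, hz3⟩, h⟩)
    · rw [h]
      exact dvd_zero _
    · obtain ⟨k1, k2⟩ := hye e he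
      have key : ∀ n : ℕ, ∀ z, R z u → z ≠ 0 → z.order = e.order + n → (n : ℤ) ≤ y.order →
          x.order ∣ (n : ℤ) := by
        intro n
        induction n using Nat.strong_induction_on with
        | _ n ih =>
          intro z h1 h2 h3 h4
          rcases h z h1 h2 ((le_iff he h2).2 (by omega)) ((le_iff h2 k1).2 (by omega)) with
            h5 | ⟨z', h5, h6, h7, h8⟩
          · rw [eqv_iff h2 he] at h5
            have : (n : ℤ) = 0 := by omega
            rw [this]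
            exact dvd_zero _
          · rw [eqv_iff (mul_ne_zero h6 hx.1) h2, Pool.Agent.Y748.UF.ord_mul h6 hx.1] at h8
            rw [le_iff he h6] at h7
            obtain ⟨n', hn'⟩ := Int.eq_ofNat_of_zero_le (sub_nonneg.2 h7)
            have h9 := ih n' (by omega) z' h5 h6 (by omega) (by omega)
            have h10 : (n : ℤ) = n' + x.order := by omega
            rw [h10]
            exact dvd_add h9 dvd_rfl
      obtain ⟨c, hc⟩ := Int.eq_ofNat_of_zero_le hy0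
      rw [eqv_iff hz2 k1, k2] at hz3
      rw [hc]
      exact key c z hz1 hz2 (by omega) (by omega)
  · rintro ⟨m, hm⟩
    by_cases hm0 : m = 0
    · left
      rw [hm, hm0, mul_zero]
    · right
      have hmpos : 0 < m := by
        rcases lt_trichotomy m 0 with h | h | h
        · have h1 : 0 < x.order := by omega
          have h2 : x.order * m < 0 := mul_neg_of_pos_of_neg h1 h
          omega
        · exact absurd h hm0
        · exact h
      obtain ⟨u, E, hu⟩ := hR x.order m (by omega) hmpos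
      obtain ⟨e, he, he1⟩ := exists_ord (p := p) E
      obtain ⟨k1, k2⟩ := hye e he
      have hmem : ∀ i : ℤ, 0 ≤ i → i ≤ m → ∃ z, R z u ∧ z ≠ 0 ∧ z.order = E + x.order * i := by
        intro i h1 h2
        have h3 : E + x.order * i ∈ Vals {z | R z u} ∩ Set.Icc E (E + x.order * m) := by
          rw [hu]
          exact ⟨i, h1, h2, rfl⟩
        exact h3.1
      refine ⟨u, e, he, ?_, fun z h1 h2 h3 h4 => ?_⟩
      · obtain ⟨z, h1, h2, h3⟩ := hmem m hmpos.le le_rfl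
        exact ⟨z, h1, h2, by rw [eqv_iff h2 k1, h3, k2, he1, hm]; ring⟩
      · rw [le_iff he h2, he1] at h3
        rw [le_iff h2 k1, k2, he1, hm] at h4
        have h5 : z.order ∈ Vals {z | R z u} ∩ Set.Icc E (E + x.order * m) :=
          ⟨⟨z, h1, h2, rfl⟩, h3, by linarith⟩
        rw [hu] at h5
        obtain ⟨i, hi0, him, hi⟩ := h5
        by_cases hi1 : i = 0
        · left
          rw [eqv_iff h2 he, he1, hi, hi1]
          ring
        · right
          obtain ⟨z', h6, h7, h8⟩ := hmem (i - 1) (by omega) (by omega)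
          refine ⟨z', h6, h7, ?_, ?_⟩
          · rw [le_iff he h7, he1, h8]
            have : 0 ≤ x.order * (i - 1) := mul_nonneg hx0 (by omega)
            omega
          · rw [eqv_iff (mul_ne_zero h7 hx.1) h2, Pool.Agent.Y748.UF.ord_mul h7 hx.1, h8, hi]
            ring

/-- true arithmetic is reducible to the theory if divisibility of valuations is definable -/
theorem arith_of_div {D : LaurentSeries (ZMod p) → LaurentSeries (ZMod p) → Prop}
    (h : IsDiv D) (hD : Df P (fun v => D (v 0) (v 1))) :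
    ∃ F : ℕ → ℕ, Primrec F ∧ ∀ ψ : Fm, ψ.fv = ∅ → ((∀ n : ℕ → ℕ, Sat (∅ : Set ℕ) ψ n) ↔
      ∃ χ : Fm, χ.code = F ψ.code ∧ χ.fv = ∅ ∧ ∀ v, Sat P χ v) := by
  have hnn : ∀ x : LaurentSeries (ZMod p), Nn x → ((x.order.toNat : ℕ) : ℤ) = x.order :=
    fun x hx => Int.toNat_of_nonneg hx.nonneg
  refine interp (P := P) (N := Nn) (E := Eqv) (O := Un) (A := fun x y z => Eqv (x * y) z)
    (M := MuR D) (fun x => x.order.toNat) (df_Nn (DFn.var 0)) (df_Eqv (DFn.var 0) (DFn.var 1))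
    (df_Un (DFn.var 0)) (df_Eqv ((DFn.var 0).mul (DFn.var 1)) (DFn.var 2)) (df_MuR hD)
    ?_ ?_ ?_ ?_ ?_
  · intro x y hx hy
    rw [eqv_iff hx.1 hy.1]
    have h1 := hnn x hx
    have h2 := hnn y hy
    omega
  · intro x hx
    rw [un_iff]
    have := hnn x hx
    constructor
    · rintro ⟨-, h1⟩
      omega
    · intro h1
      exact ⟨hx.1, by omega⟩
  · intro x y z hx hy hz
    rw [eqv_iff (mul_ne_zero hx.1 hy.1) hz.1, Pool.Agent.Y748.UF.ord_mul hx.1 hy.1]
    have h1 := hnn x hx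
    have h2 := hnn y hy
    have h3 := hnn z hz
    omega
  · intro x y z hx hy hz
    rw [mu_iff h hx hy hz, ← hnn x hx, ← hnn y hy, ← hnn z hz]
    simp only [Int.toNat_natCast]
    exact_mod_cast Iff.rfl
  · intro n
    obtain ⟨x, hx, hx1⟩ := exists_ord (p := p) n
    exact ⟨x, (nn_iff hx).2 (by omega), by rw [hx1]; simp⟩

theorem df_sat (φ : Fm) :
    Df P (fun w => Sat P φ (update (fun n => w (n + 1)) 0 (w 0))) := by
  have h0 : Df P (fun v => Sat P φ v) := ⟨φ, fun _ => Iff.rfl⟩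
  refine (h0.sub (cns 0 fun n => n + 2)).congr fun w => ?_
  have : (update (fun n => w (n + 1)) 0 (w 0)) = fun n => w (cns 0 (fun n => n + 2) n) := by
    funext n
    cases n with
    | zero => simp [cns]
    | succ n => simp [cns]
  rw [this]

/-- if the family of the sets of valuations of the sets defined by `φ` has all progressions then
true arithmetic is reducible to the theory -/
theorem arith_of_vals (φ : Fm)
    (hφ : ∀ a m : ℤ, 0 < a → 0 < m → ∃ (u : ℕ → LaurentSeries (ZMod p)) (e : ℤ),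
      Vals {z | Sat P φ (update u 0 z)} ∩ Set.Icc e (e + a * m) =
        {n | ∃ i : ℤ, 0 ≤ i ∧ i ≤ m ∧ n = e + a * i}) :
    ∃ F : ℕ → ℕ, Primrec F ∧ ∀ ψ : Fm, ψ.fv = ∅ → ((∀ n : ℕ → ℕ, Sat (∅ : Set ℕ) ψ n) ↔
      ∃ χ : Fm, χ.code = F ψ.code ∧ χ.fv = ∅ ∧ ∀ v, Sat P χ v) :=
  arith_of_div (dv_isDiv (R := fun z u => Sat P φ (update u 0 z)) hφ)
    (df_DvR (R := fun z u => Sat P φ (update u 0 z)) (df_sat φ))

end Pool.Agent.K9h38.VG
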