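import Pool.Agent.K9h38.VG.Pat

/-! # Approximate sections of the valuation -/

set_option autoImplicit false

namespace Pool.Agent.K9h38.VG

open Function Pool.Agent.Y924.EL Pool.Agent.Y924.UF Finset

section

variable {K : Type} [CommRing K] {P : Set K}

theorem df_Ex (p k : ℕ) {f g : (ℕ → K) → K} (hf : DFn P f) (hg : DFn P g) :
    Df P (fun v => Ex (f v) p k (g v)) := by
  refine Df.c2 (Q := fun t y => Ex t p k y) ?_ hf hg
  induction k with
  | zero => exact Df.eq (DFn.var 1) DFn.zero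
  | succ k ih =>
    refine Df.ex1 (R := fun w v => ∃ y', Ex (v 0) p k y' ∧ w ^ p + v 0 * y' = v 1) ?_
    refine Df.ex1 (R := fun y' v => Ex (v 1) p k y' ∧ v 0 ^ p + v 1 * y' = v 2) ?_
    refine (Df.c2 (Q := fun t y => Ex t p k y) ih (DFn.var 2) (DFn.var 0)).and ?_
    exact Df.eq (((DFn.var 1).pow _).add ((DFn.var 2).mul (DFn.var 0))) (DFn.var 3)

theorem df_HH (p : ℕ) {f g : (ℕ → K) → K} (hf : DFn P f) (hg : DFn P g) :
    Df P (fun v => HH (f v) p (g v)) := by
  refine Df.c2 (Q := fun t z => HH t p z) ?_ hf hg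
  refine Df.ex1 (R := fun w v => ∃ y', Ex (v 0) p (p - 1) y' ∧ w ^ p + v 0 * y' = v 1 + w) ?_
  refine Df.ex1 (R := fun y' v => Ex (v 1) p (p - 1) y' ∧ v 0 ^ p + v 1 * y' = v 2 + v 0) ?_
  refine (df_Ex p _ (DFn.var 2) (DFn.var 0)).and ?_
  exact Df.eq (((DFn.var 1).pow _).add ((DFn.var 2).mul (DFn.var 0))) ((DFn.var 3).add (DFn.var 1))

end

variable {p : ℕ} [Fact p.Prime]

/-! ### congruences -/

theorem O_zero : (0 : LaurentSeries (ZMod p)) ∈ OO p := ⟨0, map_zero _⟩

theorem O_one : (1 : LaurentSeries (ZMod p)) ∈ OO p := ⟨1, map_one _⟩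

theorem O_add {x y : LaurentSeries (ZMod p)} (hx : x ∈ OO p) (hy : y ∈ OO p) :
    x + y ∈ OO p := by
  obtain ⟨a, rfl⟩ := hx
  obtain ⟨b, rfl⟩ := hy
  exact ⟨a + b, map_add _ _ _⟩

theorem O_neg {x : LaurentSeries (ZMod p)} (hx : x ∈ OO p) : -x ∈ OO p := by
  obtain ⟨a, rfl⟩ := hx
  exact ⟨-a, map_neg _ _⟩

theorem O_pow {x : LaurentSeries (ZMod p)} (hx : x ∈ OO p) (n : ℕ) : x ^ n ∈ OO p := by
  obtain ⟨a, rfl⟩ := hx
  exact ⟨a ^ n, map_pow _ _ _⟩

theorem O_prod {s : Finset ℕ} {g : ℕ → LaurentSeries (ZMod p)} (h : ∀ l ∈ s, g l ∈ OO p) :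
    ∏ l ∈ s, g l ∈ OO p := by
  classical
  induction s using Finset.induction with
  | empty => rw [prod_empty]; exact O_one
  | insert a s ha ih =>
    rw [prod_insert ha]
    exact O_mul (h a (mem_insert_self _ _)) (ih fun l hl => h l (mem_insert_of_mem hl))

section

variable {y : LaurentSeries (ZMod p)}

theorem Le.add {a b : LaurentSeries (ZMod p)} (ha : Le y a) (hb : Le y b) : Le y (a + b) := by
  obtain ⟨z, hz, rfl⟩ := ha
  obtain ⟨w, hw, rfl⟩ := hb
  exact ⟨z + w, O_add hz hw, mul_add _ _ _⟩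

theorem Le.neg {a : LaurentSeries (ZMod p)} (ha : Le y a) : Le y (-a) := by
  obtain ⟨z, hz, rfl⟩ := ha
  exact ⟨-z, O_neg hz, by ring⟩

theorem Le.zero : Le y 0 := ⟨0, O_zero, mul_zero _⟩

theorem Le.mul {a b : LaurentSeries (ZMod p)} (ha : a ∈ OO p) (hb : Le y b) : Le y (a * b) := by
  obtain ⟨z, hz, rfl⟩ := hb
  exact ⟨a * z, O_mul ha hz, by ring⟩

theorem cg_symm {a b : LaurentSeries (ZMod p)} (h : Le y (a - b)) : Le y (b - a) := by
  have := h.neg
  rwa [neg_sub] at this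

theorem cg_trans {a b c : LaurentSeries (ZMod p)} (h : Le y (a - b)) (h' : Le y (b - c)) :
    Le y (a - c) := by
  have := h.add h'
  rwa [sub_add_sub_cancel] at this

theorem cg_mul {a a' b b' : LaurentSeries (ZMod p)} (ha : a ∈ OO p) (hb' : b' ∈ OO p)
    (h : Le y (a - a')) (h' : Le y (b - b')) : Le y (a * b - a' * b') := by
  have h1 := (Le.mul ha h').add (Le.mul hb' h)
  have h2 : a * (b - b') + b' * (a - a') = a * b - a' * b' := by ring
  rwa [h2] at h1

theorem cg_prod {s : Finset ℕ} {g g' : ℕ → LaurentSeries (ZMod p)} (h : ∀ l ∈ s, g l ∈ OO p)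
    (h' : ∀ l ∈ s, g' l ∈ OO p) (hg : ∀ l ∈ s, Le y (g l - g' l)) :
    Le y (∏ l ∈ s, g l - ∏ l ∈ s, g' l) := by
  classical
  induction s using Finset.induction with
  | empty => rw [prod_empty, prod_empty, sub_self]; exact Le.zero
  | insert a s ha ih =>
    rw [prod_insert ha, prod_insert ha]
    exact cg_mul (h a (mem_insert_self _ _)) (O_prod fun l hl => h' l (mem_insert_of_mem hl))
      (hg a (mem_insert_self _ _)) (ih (fun l hl => h l (mem_insert_of_mem hl))
        (fun l hl => h' l (mem_insert_of_mem hl)) fun l hl => hg l (mem_insert_of_mem hl))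

theorem cg_pow {a a' : LaurentSeries (ZMod p)} (ha : a ∈ OO p) (ha' : a' ∈ OO p)
    (h : Le y (a - a')) (n : ℕ) : Le y (a ^ n - a' ^ n) := by
  have h1 := cg_prod (y := y) (s := range n) (g := fun _ => a) (g' := fun _ => a')
    (fun _ _ => ha) (fun _ _ => ha') fun _ _ => h
  simpa using h1

end

theorem ord_prod (k : ℕ) (f : ℕ → LaurentSeries (ZMod p)) (i : ℤ) (h : ∀ l < k, f l ≠ 0)
    (h' : ∀ l < k, (f l).order = i) : ∏ l ∈ range k, f l ≠ 0 ∧
      (∏ l ∈ range k, f l).order = k * i := by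
  induction k with
  | zero => simp
  | succ k ih =>
    obtain ⟨h1, h2⟩ := ih (fun l hl => h l (by omega)) fun l hl => h' l (by omega)
    rw [prod_range_succ]
    refine ⟨mul_ne_zero h1 (h k (by omega)), ?_⟩
    rw [Pool.Agent.Y748.UF.ord_mul h1 (h k (by omega)), h2, h' k (by omega)]
    push_cast
    ring

/-! ### transversals -/

/-- `f 0, ..., f (k - 1)` represent the classes modulo `y` of the elements `x`, `b x` in the family,
of the valuation of `f 0` -/
def Tv (R : LaurentSeries (ZMod p) → (ℕ → LaurentSeries (ZMod p)) → Prop)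
    (b y : LaurentSeries (ZMod p)) (u : ℕ → LaurentSeries (ZMod p)) (k : ℕ)
    (f : ℕ → LaurentSeries (ZMod p)) : Prop :=
  (∀ l, l < k → R (b * f l) u ∧ f l ≠ 0 ∧ Eqv (f l) (f 0)) ∧
    (∀ l, l < k → ∀ l', l' < k → l ≠ l' → ¬ Le y (f l - f l')) ∧
    ∀ x', R (b * x') u → x' ≠ 0 → Eqv x' (f 0) → ∃ l, l < k ∧ Le y (x' - f l)

section

variable {R : LaurentSeries (ZMod p) → (ℕ → LaurentSeries (ZMod p)) → Prop}
  {b y : LaurentSeries (ZMod p)} {u : ℕ → LaurentSeries (ZMod p)}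

theorem tv_le {k k' : ℕ} {f f' : ℕ → LaurentSeries (ZMod p)} (hk : 0 < k) (hk' : 0 < k')
    (h : Tv R b y u k f) (h' : Tv R b y u k' f') (h0 : (f 0).order = (f' 0).order) :
    ∃ σ : ℕ → ℕ, (∀ l < k', σ l < k ∧ Le y (f' l - f (σ l))) ∧
      ∀ l < k', ∀ l' < k', σ l = σ l' → l = l' := by
  have hf0 := (h.1 0 hk).2.1
  have hf0' := (h'.1 0 hk').2.1
  have h1 : ∀ l, ∃ m, l < k' → m < k ∧ Le y (f' l - f m) := by
    intro l
    by_cases hl : l < k'
    · obtain ⟨h2, h3, h4⟩ := h'.1 l hl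
      rw [eqv_iff h3 hf0', ← h0, ← eqv_iff h3 hf0] at h4
      obtain ⟨m, hm, h5⟩ := h.2.2 _ h2 h3 h4
      exact ⟨m, fun _ => ⟨hm, h5⟩⟩
    · exact ⟨0, fun h => absurd h hl⟩
  choose σ hσ using h1
  refine ⟨σ, hσ, fun l hl l' hl' hll => ?_⟩
  by_contra hc
  refine h'.2.1 l hl l' hl' hc ?_
  have h2 := (hσ l' hl').2
  rw [← hll] at h2
  exact cg_trans (hσ l hl).2 (cg_symm h2)

theorem tv_unique {k k' : ℕ} {f f' : ℕ → LaurentSeries (ZMod p)} (hk : 0 < k) (hk' : 0 < k')
    (h : Tv R b y u k f) (h' : Tv R b y u k' f') (h0 : (f 0).order = (f' 0).order)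
    (hn : Nn (f 0)) (hn' : Nn (f' 0)) :
    k = k' ∧ Le y (∏ l ∈ range k, f l - ∏ l ∈ range k', f' l) := by
  classical
  have hO : ∀ l < k, f l ∈ OO p := by
    intro l hl
    obtain ⟨-, h1, h2⟩ := h.1 l hl
    rw [eqv_iff h1 hn.1] at h2
    rw [ord_nonneg h1, h2]
    exact hn.nonneg
  have hO' : ∀ l < k', f' l ∈ OO p := by
    intro l hl
    obtain ⟨-, h1, h2⟩ := h'.1 l hl
    rw [eqv_iff h1 hn'.1] at h2
    rw [ord_nonneg h1, h2]
    exact hn'.nonneg
  obtain ⟨σ, h1, h2⟩ := tv_le hk hk' h h' h0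
  obtain ⟨ρ, h3, h4⟩ := tv_le hk' hk h' h h0.symm
  have e1 : k' ≤ k := by
    have := Finset.card_le_card_of_injOn (s := range k') (t := range k) σ
      (fun l hl => by
        have hl' : l < k' := by simpa using hl
        simpa using (h1 l hl').1)
      (fun l hl l' hl' hh => h2 l (by simpa using hl) l' (by simpa using hl') hh)
    simpa using this
  have e2 : k ≤ k' := by
    have := Finset.card_le_card_of_injOn (s := range k) (t := range k') ρ
      (fun l hl => by
        have hl' : l < k := by simpa using hl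
        simpa using (h3 l hl').1)
      (fun l hl l' hl' hh => h4 l (by simpa using hl) l' (by simpa using hl') hh)
    simpa using this
  have e : k = k' := le_antisymm e2 e1
  subst e
  refine ⟨rfl, cg_symm ?_⟩
  have himg : (range k).image σ = range k := by
    apply Finset.eq_of_subset_of_card_le
    · intro m hm
      rw [mem_image] at hm
      obtain ⟨l, hl, rfl⟩ := hm
      simpa using (h1 l (by simpa using hl)).1
    · rw [Finset.card_image_of_injOn]
      intro l hl l' hl' hh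
      exact h2 l (by simpa using hl) l' (by simpa using hl') hh
  have h5 : ∏ l ∈ range k, f l = ∏ l ∈ range k, f (σ l) := by
    conv_lhs => rw [← himg]
    rw [prod_image]
    intro l hl l' hl' hh
    exact h2 l (by simpa using hl) l' (by simpa using hl') hh
  rw [h5]
  refine cg_prod (fun l hl => hO' l (by simpa using hl)) (fun l hl => ?_) fun l hl => ?_
  · exact hO _ (h1 l (by simpa using hl)).1
  · exact (h1 l (by simpa using hl)).2

/-- existence of a transversal -/
theorem tv_exists {C : ℕ} {i : ℤ} (hne : ∃ x, R (b * x) u ∧ x ≠ 0 ∧ x.order = i)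
    (G : Finset (LaurentSeries (ZMod p))) (hG : G.card ≤ C)
    (hc : ∀ x, R (b * x) u → x ≠ 0 → x.order = i → ∃ g ∈ G, Le y (x - g)) :
    ∃ (k : ℕ) (f : ℕ → LaurentSeries (ZMod p)), 0 < k ∧ k ≤ C ∧ Tv R b y u k f ∧ f 0 ≠ 0 ∧
      (f 0).order = i := by
  classical
  let Q : ℕ → Prop := fun k => ∃ f : ℕ → LaurentSeries (ZMod p),
    (∀ l, l < k → R (b * f l) u ∧ f l ≠ 0 ∧ (f l).order = i) ∧
      ∀ l, l < k → ∀ l', l' < k → l ≠ l' → ¬ Le y (f l - f l')
  have hQ : ∀ k, Q k → k ≤ C := by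
    rintro k ⟨f, h1, h2⟩
    have h3 : ∀ l, ∃ g, l < k → g ∈ G ∧ Le y (f l - g) := by
      intro l
      by_cases hl : l < k
      · obtain ⟨a1, a2, a3⟩ := h1 l hl
        obtain ⟨g, hg, h⟩ := hc _ a1 a2 a3
        exact ⟨g, fun _ => ⟨hg, h⟩⟩
      · exact ⟨0, fun h => absurd h hl⟩
    choose γ hγ using h3
    have := Finset.card_le_card_of_injOn (s := range k) (t := G) γ
      (fun l hl => (hγ l (by simpa using hl)).1) (fun l hl l' hl' hh => by
        by_contra hne'
        have a1 : l < k := by simpa using hl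
        have a2 : l' < k := by simpa using hl'
        refine h2 l a1 l' a2 hne' ?_
        have h4 := (hγ l' a2).2
        have h5 := (hγ l a1).2
        rw [show γ l = γ l' from hh] at h5
        exact cg_trans h5 (cg_symm h4))
    rw [card_range] at this
    omega
  obtain ⟨x, hx1, hx2, hx3⟩ := hne
  have hQ1 : Q 1 := ⟨fun _ => x, fun l _ => ⟨hx1, hx2, hx3⟩, fun l hl l' hl' h => by omega⟩
  have hk := Nat.findGreatest_spec (P := Q) (hQ 1 hQ1) hQ1
  have hk1 : 1 ≤ Nat.findGreatest Q C := Nat.le_findGreatest (hQ 1 hQ1) hQ1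
  have hkC := hQ _ hk
  have hk2 : ¬ Q (Nat.findGreatest Q C + 1) := by
    intro h
    have h1 := hQ _ h
    have h2 := Nat.le_findGreatest h1 h
    omega
  generalize Nat.findGreatest Q C = k at hk hk1 hkC hk2
  obtain ⟨f, h1, h2⟩ := hk
  have h0 := h1 0 (by omega)
  refine ⟨k, f, by omega, hkC, ⟨fun l hl => ?_, h2, fun x' a1 a2 a3 => ?_⟩, h0.2.1, h0.2.2⟩
  · obtain ⟨b1, b2, b3⟩ := h1 l hl
    exact ⟨b1, b2, by rw [eqv_iff b2 h0.2.1, b3, h0.2.2]⟩
  · rw [eqv_iff a2 h0.2.1, h0.2.2] at a3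
    by_contra hno
    push Not at hno
    refine hk2 ⟨fun l => if l < k then f l else x', fun l hl => ?_, fun l hl l' hl' hne' => ?_⟩
    · by_cases hlk : l < k
      · simp only [if_pos hlk]
        exact h1 l hlk
      · simp only [if_neg hlk]
        exact ⟨a1, a2, a3⟩
    · by_cases hlk : l < k <;> by_cases hlk' : l' < k
      · simp only [if_pos hlk, if_pos hlk']
        exact h2 l hlk l' hlk' hne'
      · simp only [if_pos hlk, if_neg hlk']
        exact fun h => hno l hlk (cg_symm h)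
      · simp only [if_neg hlk, if_pos hlk']
        exact hno l' hlk'
      · omega

end

end Pool.Agent.K9h38.VG
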