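import Pool.Agent.K9h38.VG.Sec

/-! # Approximate sections code sets of valuations -/

set_option autoImplicit false

namespace Pool.Agent.K9h38.VG

open Function Pool.Agent.Y924.EL Pool.Agent.Y924.UF Finset Nat

/-- the section made of the multi-section of the family -/
def SecR {p : ℕ} [Fact p.Prime]
    (R : LaurentSeries (ZMod p) → (ℕ → LaurentSeries (ZMod p)) → Prop) (C : ℕ)
    (x b y τ : LaurentSeries (ZMod p)) (u : ℕ → LaurentSeries (ZMod p)) : Prop :=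
  ∃ f : ℕ → LaurentSeries (ZMod p), ∃ k, k < C + 1 ∧ (0 < k ∧ ∃ j, j < C ! ∧ (Tv R b y u k f ∧
    Nn (f 0) ∧ x = τ ^ j * (∏ l ∈ range k, f l) ^ (C ! / k)))

/-- the part of the section with nonzero residue with `s` -/
def CodR {p : ℕ} [Fact p.Prime]
    (R : LaurentSeries (ZMod p) → (ℕ → LaurentSeries (ZMod p)) → Prop) (C : ℕ)
    (x s b y τ : LaurentSeries (ZMod p)) (u : ℕ → LaurentSeries (ZMod p)) : Prop :=
  SecR R C x b y τ u ∧ ¬ Le y x ∧ ¬ HH τ p (s * x)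

variable {p : ℕ} [Fact p.Prime] {P : Set (LaurentSeries (ZMod p))}

section df

variable {R : LaurentSeries (ZMod p) → (ℕ → LaurentSeries (ZMod p)) → Prop}

theorem df_R (hR : Df P (fun w => R (w 0) (fun n => w (n + 1))))
    {g : (ℕ → LaurentSeries (ZMod p)) → LaurentSeries (ZMod p)} (hg : DFn P g) (ρ : ℕ → ℕ) :
    Df P (fun w => R (g w) (fun n => w (ρ n))) :=
  Df.comp hR (F := cns g (fun n w => w (ρ n))) fun i => by
    cases i
    · exact hg
    · exact DFn.var _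

/-- `v 0 = b`, `v 1 = y`, `u = v (· + 2)` -/
theorem df_Tv (hR : Df P (fun w => R (w 0) (fun n => w (n + 1)))) (k : ℕ) (β υ : ℕ) (μ ξ : ℕ → ℕ) :
    Df P (fun w => Tv R (w β) (w υ) (fun n => w (μ n)) k (fun n => w (ξ n))) := by
  refine Df.and ?_ (Df.and ?_ ?_)
  · refine Df.all_lt k fun l _ => ?_
    exact (df_R hR ((DFn.var β).mul (DFn.var (ξ l))) μ).and
      ((Df.ne (DFn.var (ξ l)) DFn.zero).and (df_Eqv (DFn.var (ξ l)) (DFn.var (ξ 0))))
  · refine Df.all_lt k fun l _ => Df.all_lt k fun l' _ => (Df.const (l ≠ l')).imp ?_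
    exact (df_Le (DFn.var υ) ((DFn.var (ξ l)).sub' (DFn.var (ξ l')))).not
  · refine Df.all1 (R := fun x' w => R (w β * x') (fun n => w (μ n)) → x' ≠ 0 →
      Eqv x' (w (ξ 0)) → ∃ l, l < k ∧ Le (w υ) (x' - w (ξ l))) ?_
    refine (df_R hR ((DFn.var (β + 1)).mul (DFn.var 0)) (fun n => μ n + 1)).imp
      ((Df.ne (DFn.var 0) DFn.zero).imp ((df_Eqv (DFn.var 0) (DFn.var (ξ 0 + 1))).imp ?_))
    exact Df.ex_lt k fun l _ => df_Le (DFn.var (υ + 1)) ((DFn.var 0).sub' (DFn.var (ξ l + 1)))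

/-- `w 0 = x`, `w 1 = s`, `w 2 = b`, `w 3 = y`, `w 4 = τ`, `u = w (· + 5)` -/
theorem df_CodR (hR : Df P (fun w => R (w 0) (fun n => w (n + 1)))) (C : ℕ) :
    Df P (fun w => CodR R C (w 0) (w 1) (w 2) (w 3) (w 4) (fun n => w (n + 5))) := by
  refine Df.and ?_ ((df_Le (DFn.var 3) (DFn.var 0)).not.and
    (df_HH p (DFn.var 4) ((DFn.var 1).mul (DFn.var 0))).not)
  refine Df.exs (R := fun w f => ∃ k, k < C + 1 ∧ (0 < k ∧ ∃ j, j < C ! ∧
    (Tv R (w 2) (w 3) (fun n => w (n + 5)) k f ∧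
    Nn (f 0) ∧ w 0 = w 4 ^ j * (∏ l ∈ range k, f l) ^ (C ! / k)))) ?_
  refine Df.ex_lt (C + 1) fun k _ => (Df.const (0 < k)).and (Df.ex_lt (C !) fun j _ => ?_)
  refine (df_Tv hR k 4 6 (fun n => 2 * (n + 5)) (fun n => 2 * n + 1)).and
    ((df_Nn (DFn.var 1)).and ?_)
  exact Df.eq (DFn.var 0) (((DFn.var 8).pow j).mul
    ((DFn.prod k fun l _ => DFn.var (2 * l + 1)).pow _))

end df

section

variable {R : LaurentSeries (ZMod p) → (ℕ → LaurentSeries (ZMod p)) → Prop}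
  {b y τ : LaurentSeries (ZMod p)} {u : ℕ → LaurentSeries (ZMod p)} {C : ℕ}

theorem tv_prod {k : ℕ} {f : ℕ → LaurentSeries (ZMod p)} (hk : 0 < k) (h : Tv R b y u k f)
    (hn : Nn (f 0)) : (∀ l ∈ range k, f l ∈ OO p) ∧ ∏ l ∈ range k, f l ≠ 0 ∧
      (∏ l ∈ range k, f l).order = k * (f 0).order := by
  have h1 : ∀ l < k, (f l).order = (f 0).order := by
    intro l hl
    obtain ⟨-, h1, h2⟩ := h.1 l hl
    rwa [eqv_iff h1 hn.1] at h2
  refine ⟨fun l hl => ?_, ord_prod k f _ (fun l hl => (h.1 l hl).2.1) h1⟩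
  have hl' : l < k := by simpa using hl
  rw [ord_nonneg (h.1 l hl').2.1, h1 l hl']
  exact hn.nonneg

theorem dvd_fact {k : ℕ} (hk : 0 < k) (hkC : k < C + 1) : k * (C ! / k) = C ! :=
  Nat.mul_div_cancel' (Nat.dvd_factorial hk (by omega))

theorem sec_order {k j : ℕ} {f : ℕ → LaurentSeries (ZMod p)} {x : LaurentSeries (ZMod p)}
    (hτ0 : τ ≠ 0) (hτ : τ.order = 1)
    (hk : 0 < k) (hkC : k < C + 1) (h : Tv R b y u k f) (hn : Nn (f 0))
    (hx : x = τ ^ j * (∏ l ∈ range k, f l) ^ (C ! / k)) :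
    x ≠ 0 ∧ x ∈ OO p ∧ x.order = j + (C ! : ℕ) * (f 0).order := by
  obtain ⟨h1, h2, h3⟩ := tv_prod hk h hn
  have h4 : τ ^ j ≠ 0 := pow_ne_zero _ hτ0
  have h5 : (∏ l ∈ range k, f l) ^ (C ! / k) ≠ 0 := pow_ne_zero _ h2
  have h6 : ((k * (C ! / k) : ℕ) : ℤ) = (C ! : ℕ) := by rw [dvd_fact hk hkC]
  refine ⟨by rw [hx]; exact mul_ne_zero h4 h5, ?_, ?_⟩
  · rw [hx]
    exact O_mul (O_pow ((ord_nonneg hτ0).2 (by omega)) _) (O_pow (O_prod h1) _)
  · rw [hx, Pool.Agent.Y748.UF.ord_mul h4 h5, Pool.Agent.Y748.UF.ord_pow hτ0,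
      Pool.Agent.Y748.UF.ord_pow h2, h3, hτ, ← h6]
    push_cast
    ring

theorem sec_unique (hτ0 : τ ≠ 0) (hτ : τ.order = 1) {x x' : LaurentSeries (ZMod p)}
    (h : SecR R C x b y τ u) (h' : SecR R C x' b y τ u) (ho : x.order = x'.order) :
    Le y (x - x') := by
  obtain ⟨f, k, hk, hk0, j, hj, h1, h2, h3⟩ := h
  obtain ⟨f', k', hk', hk0', j', hj', h1', h2', h3'⟩ := h'
  have e1 := (sec_order hτ0 hτ hk0 hk h1 h2 h3).2.2
  have e2 := (sec_order hτ0 hτ hk0' hk' h1' h2' h3').2.2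
  have e3 := h2.nonneg
  have e4 := h2'.nonneg
  have hC : 0 < C ! := Nat.factorial_pos C
  obtain ⟨i, hi⟩ := Int.eq_ofNat_of_zero_le e3
  obtain ⟨i', hi'⟩ := Int.eq_ofNat_of_zero_le e4
  have e5 : j + C ! * i = j' + C ! * i' := by
    rw [e1, e2, hi, hi'] at ho
    exact_mod_cast ho
  have e6 : i = i' := by
    have a1 : (j + C ! * i) / C ! = i := by
      rw [Nat.add_mul_div_left _ _ hC, Nat.div_eq_of_lt hj, zero_add]
    have a2 : (j' + C ! * i') / C ! = i' := by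
      rw [Nat.add_mul_div_left _ _ hC, Nat.div_eq_of_lt hj', zero_add]
    rw [← a1, ← a2, e5]
  have e7 : j = j' := by
    rw [e6] at e5
    omega
  obtain ⟨rfl, h4⟩ := tv_unique hk0 hk0' h1 h1' (by rw [hi, hi', e6]) h2 h2'
  rw [h3, h3', ← e7, ← mul_sub]
  refine Le.mul (O_pow ((ord_nonneg hτ0).2 (by omega)) _) ?_
  exact cg_pow (O_prod (tv_prod hk0 h1 h2).1) (O_prod (tv_prod hk0' h1' h2').1) h4 _

theorem sec_exists (hτ0 : τ ≠ 0) (hτ : τ.order = 1) (n : ℕ)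
    (h : ∃ G : Finset (LaurentSeries (ZMod p)), G.card ≤ C ∧
      (∃ x, R (b * x) u ∧ x ≠ 0 ∧ x.order = ((n / C ! : ℕ) : ℤ)) ∧
      ∀ x, R (b * x) u → x ≠ 0 → x.order = ((n / C ! : ℕ) : ℤ) → ∃ g ∈ G, Le y (x - g)) :
    ∃ x, SecR R C x b y τ u ∧ x ≠ 0 ∧ x ∈ OO p ∧ x.order = n := by
  obtain ⟨G, hG, hne, hc⟩ := h
  obtain ⟨k, f, hk, hkC, h1, h2, h3⟩ := tv_exists hne G hG hc
  have hn : Nn (f 0) := (nn_iff h2).2 (by rw [h3]; exact Int.natCast_nonneg _)
  have hC : 0 < C ! := Nat.factorial_pos C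
  have h4 := sec_order (C := C) (j := n % C !) hτ0 hτ hk (by omega) h1 hn rfl
  refine ⟨_, ⟨f, k, by omega, hk, n % C !, Nat.mod_lt _ hC, h1, hn, rfl⟩, h4.1, h4.2.1, ?_⟩
  rw [h4.2.2, h3]
  exact_mod_cast Nat.mod_add_div n (C !)

end

/-- prescribed residues -/
theorem exists_res (N : ℕ) (a : ℕ → LaurentSeries (ZMod p)) (ha : ∀ n < N, a n ≠ 0)
    (ha' : ∀ n < N, (a n).order = n) (c : ℕ → ZMod p) :
    ∃ s : LaurentSeries (ZMod p), (∀ k : ℤ, k < 1 - N → s.coeff k = 0) ∧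
      ∀ n < N, (s * a n).coeff 0 = c n := by
  have key : ∀ d : ℕ, d ≤ N → ∃ s : LaurentSeries (ZMod p),
      (∀ k : ℤ, k < 1 - N → s.coeff k = 0) ∧
      ∀ n, N - d ≤ n → n < N → (s * a n).coeff 0 = c n := by
    intro d
    induction d with
    | zero => exact fun _ => ⟨0, by simp, fun n h1 h2 => by omega⟩
    | succ d ih =>
      intro hd
      obtain ⟨s, hs1, hs2⟩ := ih (by omega)
      set m := N - (d + 1) with hm
      have hmN : m < N := by omega
      have hlead : (a m).coeff m ≠ 0 := by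
        have := ha' m hmN
        rw [← this]
        exact HahnSeries.coeff_order_eq_zero.not.2 (ha m hmN)
      set e : ZMod p := (c m - (s * a m).coeff 0) / (a m).coeff m with he
      have hadd : ∀ n : ℕ, ((s + HahnSeries.single (-(m : ℤ)) e) * a n).coeff 0 =
          (s * a n).coeff 0 + e * (a n).coeff m := by
        intro n
        rw [add_mul, HahnSeries.coeff_add]
        congr 1
        have h1 := HahnSeries.coeff_single_mul_add (r := e) (x := a n) (a := (m : ℤ))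
          (b := -(m : ℤ))
        rwa [add_neg_cancel] at h1
      refine ⟨s + HahnSeries.single (-(m : ℤ)) e, fun k hk => ?_, fun n h1 h2 => ?_⟩
      · rw [HahnSeries.coeff_add, hs1 k hk, HahnSeries.coeff_single_of_ne (by omega), add_zero]
      · rw [hadd]
        by_cases hn : n = m
        · rw [hn, he, div_mul_cancel₀ _ hlead]
          ring
        · have h3 : (a n).coeff (m : ℤ) = 0 := by
            apply HahnSeries.coeff_eq_zero_of_lt_order
            rw [ha' n h2]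
            have : m < n := by omega
            exact_mod_cast this
          rw [h3, mul_zero, add_zero]
          exact hs2 n (by omega) h2
  obtain ⟨s, h1, h2⟩ := key N le_rfl
  exact ⟨s, h1, fun n hn => h2 n (by omega) hn⟩

theorem coeff_eq_of_Le {N : ℕ} {s x x' : LaurentSeries (ZMod p)}
    (hs : ∀ k : ℤ, k < 1 - N → s.coeff k = 0)
    (h : Le (HahnSeries.single (N : ℤ) (1 : ZMod p)) (x - x')) :
    (s * x).coeff 0 = (s * x').coeff 0 := by
  obtain ⟨z, hz, h1⟩ := h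
  have h2 : s * x = s * x' + s * (HahnSeries.single (N : ℤ) (1 : ZMod p) * z) := by
    rw [h1]; ring
  have h3 : (s * (HahnSeries.single (N : ℤ) (1 : ZMod p) * z)).coeff 0 = 0 := by
    have h4 : s * (HahnSeries.single (N : ℤ) (1 : ZMod p) * z) =
        HahnSeries.single (1 : ℤ) (1 : ZMod p) *
          ((HahnSeries.single ((N : ℤ) - 1) (1 : ZMod p) * s) * z) := by
      have h5 : HahnSeries.single (N : ℤ) (1 : ZMod p) =
          HahnSeries.single (1 : ℤ) (1 : ZMod p) * HahnSeries.single ((N : ℤ) - 1) (1 : ZMod p) := by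
        rw [HahnSeries.single_mul_single, one_mul]
        congr 1
        ring
      rw [h5]
      ring
    rw [h4, HahnSeries.coeff_single_mul, one_mul]
    have h6 : (HahnSeries.single ((N : ℤ) - 1) (1 : ZMod p) * s) ∈ OO p := by
      rw [Pool.Agent.Y155.UF.mem_OO]
      intro n hn
      rw [HahnSeries.coeff_single_mul, one_mul]
      exact hs _ (by omega)
    exact (Pool.Agent.Y155.UF.mem_OO _).1 (O_mul h6 hz) _ (by norm_num)
  rw [h2, HahnSeries.coeff_add, h3, add_zero]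

/-- all sets of valuations below `N` are coded -/
theorem coded {R : LaurentSeries (ZMod p) → (ℕ → LaurentSeries (ZMod p)) → Prop}
    {b : LaurentSeries (ZMod p)} {u : ℕ → LaurentSeries (ZMod p)} {C N : ℕ}
    (h : ∀ i : ℕ, i < N → ∃ G : Finset (LaurentSeries (ZMod p)), G.card ≤ C ∧
      (∃ x, R (b * x) u ∧ x ≠ 0 ∧ x.order = (i : ℤ)) ∧
      ∀ x, R (b * x) u → x ≠ 0 → x.order = (i : ℤ) →
        ∃ g ∈ G, Le (HahnSeries.single (N : ℤ) (1 : ZMod p)) (x - g)) (I : Set ℕ) :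
    ∃ s : LaurentSeries (ZMod p), ∀ n : ℤ,
      n ∈ Vals {x | CodR R C x s b (HahnSeries.single (N : ℤ) 1) (tt p) u} ↔
        ∃ i : ℕ, i < N ∧ i ∈ I ∧ n = i := by
  classical
  have hτ0 : tt p ≠ 0 := HahnSeries.single_ne_zero one_ne_zero
  have hτ : (tt p).order = 1 := HahnSeries.order_single one_ne_zero
  have hC : 0 < C ! := Nat.factorial_pos C
  have h1 : ∀ n : ℕ, ∃ x : LaurentSeries (ZMod p), n < N →
      SecR R C x b (HahnSeries.single (N : ℤ) 1) (tt p) u ∧ x ≠ 0 ∧ x ∈ OO p ∧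
        x.order = n := by
    intro n
    by_cases hn : n < N
    · obtain ⟨x, hx⟩ := sec_exists hτ0 hτ n
        (h (n / C !) (lt_of_le_of_lt (Nat.div_le_self _ _) hn))
      exact ⟨x, fun _ => hx⟩
    · exact ⟨0, fun h => absurd h hn⟩
  choose a ha using h1
  obtain ⟨s, hs1, hs2⟩ := exists_res N a (fun n hn => (ha n hn).2.1)
    (fun n hn => (ha n hn).2.2.2) (fun n => if n ∈ I then 1 else 0)
  have hN0 : (HahnSeries.single (N : ℤ) (1 : ZMod p) : LaurentSeries (ZMod p)) ≠ 0 :=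
    HahnSeries.single_ne_zero one_ne_zero
  have hN1 : (HahnSeries.single (N : ℤ) (1 : ZMod p) : LaurentSeries (ZMod p)).order = N :=
    HahnSeries.order_single one_ne_zero
  refine ⟨s, fun n => ⟨?_, ?_⟩⟩
  · rintro ⟨x, ⟨h2, h3, h4⟩, h5, rfl⟩
    have h7 : 0 ≤ x.order := by
      obtain ⟨f, k, hk, hk0, j, hj, k1, k2, k3⟩ := h2
      rw [(sec_order hτ0 hτ hk0 hk k1 k2 k3).2.2]
      have := k2.nonneg
      positivity
    rw [le_iff hN0 h5, hN1] at h3
    obtain ⟨i, hi⟩ := Int.eq_ofNat_of_zero_le h7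
    have hiN : i < N := by omega
    obtain ⟨a1, a2, a3, a4⟩ := ha i hiN
    have h8 := sec_unique hτ0 hτ h2 a1 (by rw [hi, a4])
    rw [show HH (tt p) p (s * x) ↔ (s * x).coeff 0 = 0 from Pool.Agent.Y15.UF.t_RES p _,
      coeff_eq_of_Le hs1 h8, hs2 i hiN] at h4
    refine ⟨i, hiN, ?_, hi⟩
    by_contra hc
    exact h4 (if_neg hc)
  · rintro ⟨i, hiN, hiI, rfl⟩
    obtain ⟨a1, a2, a3, a4⟩ := ha i hiN
    refine ⟨a i, ⟨a1, ?_, ?_⟩, a2, a4⟩
    · rw [le_iff hN0 a2, hN1, a4]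
      omega
    · rw [show HH (tt p) p (s * a i) ↔ (s * a i).coeff 0 = 0 from Pool.Agent.Y15.UF.t_RES p _,
        hs2 i hiN, if_pos hiI]
      exact one_ne_zero

end Pool.Agent.K9h38.VG
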