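import Pool.Agent.K9h38.VG.Df
import Pool.Agent.Y155.UF.Fin2
import Pool.Agent.Y748.UF.Val
import Pool.Agent.Y675.UF.Root
import Pool.Agent.Y15.UF.Res

/-! # The valuation of `F_p((t))`, definably -/

set_option autoImplicit false

namespace Pool.Agent.K9h38.VG

open Function Pool.Agent.Y924.EL Pool.Agent.Y924.UF

section

variable {K : Type} [CommRing K] {P : Set K}

theorem df_Gd (p : ℕ) {f : (ℕ → K) → K} (hf : DFn P f) : Df P (fun v => Gd p (f v)) := by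
  refine Df.c1 (Q := fun τ => Gd p τ) ?_ hf
  refine Df.not ?_
  refine Df.ex1 (R := fun s v => ∃ c, c ^ (p - 1) = 1 ∧ c * s ^ (p + 1) = v 0) ?_
  refine Df.ex1 (R := fun c v => c ^ (p - 1) = 1 ∧ c * v 0 ^ (p + 1) = v 1) ?_
  exact (Df.eq ((DFn.var 0).pow _) DFn.one).and
    (Df.eq ((DFn.var 0).mul ((DFn.var 1).pow _)) (DFn.var 2))

theorem df_OT (q : ℕ) {f g : (ℕ → K) → K} (hf : DFn P f) (hg : DFn P g) :
    Df P (fun v => OT q (f v) (g v)) := by
  refine Df.c2 (Q := fun τ x => OT q τ x) ?_ hf hg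
  refine Df.ex1 (R := fun y v => y ^ q = 1 + v 0 * v 1 ^ q) ?_
  exact Df.eq ((DFn.var 0).pow _) (DFn.one.add ((DFn.var 1).mul ((DFn.var 2).pow _)))

end

variable {p : ℕ} [Fact p.Prime]

theorem val_O (z : LaurentSeries (ZMod p)) : z ∈ OO p ↔ OT (p + 1) (tt p) z :=
  (Pool.Agent.Y748.UF.t_VAL Pool.Agent.Y675.UF.t_ROOT p).1 z

theorem ord_nonneg {z : LaurentSeries (ZMod p)} (hz : z ≠ 0) : z ∈ OO p ↔ 0 ≤ z.order := by
  rw [Pool.Agent.Y155.UF.mem_OO]
  constructor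
  · intro h
    by_contra hc
    exact hz (HahnSeries.coeff_order_eq_zero.1 (h _ (not_le.1 hc)))
  · intro h n hn
    exact HahnSeries.coeff_eq_zero_of_lt_order (by omega)

theorem O_mul {x y : LaurentSeries (ZMod p)} (hx : x ∈ OO p) (hy : y ∈ OO p) :
    x * y ∈ OO p := by
  obtain ⟨a, rfl⟩ := hx
  obtain ⟨b, rfl⟩ := hy
  exact ⟨a * b, map_mul _ _ _⟩

/-- the valuation ring is defined without parameters -/
theorem mem_O_iff (z : LaurentSeries (ZMod p)) : z ∈ OO p ↔ ∃ τ : LaurentSeries (ZMod p),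
    Gd p τ ∧ (∀ x y, OT (p + 1) τ x → OT (p + 1) τ y → OT (p + 1) τ (x * y)) ∧
      OT (p + 1) τ z := by
  constructor
  · intro hz
    refine ⟨tt p, (Pool.Agent.Y748.UF.t_VAL Pool.Agent.Y675.UF.t_ROOT p).2, fun x y hx hy => ?_,
      (val_O z).1 hz⟩
    rw [← val_O] at hx hy ⊢
    exact O_mul hx hy
  · rintro ⟨τ, h1, h2, h3⟩
    by_cases hz : z = 0
    · rw [hz]
      exact ⟨0, map_zero _⟩
    rw [ord_nonneg hz]
    by_contra hc
    have h4 : ∀ k : ℕ, OT (p + 1) τ (z ^ (k + 1)) := by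
      intro k
      induction k with
      | zero => rw [zero_add, pow_one]; exact h3
      | succ k ih => rw [pow_succ]; exact h2 _ _ ih h3
    have h5 := Pool.Agent.Y155.UF.bound Pool.Agent.Y675.UF.t_ROOT h1 (pow_ne_zero _ hz)
      (h4 τ.order.natAbs)
    rw [Pool.Agent.Y748.UF.ord_pow hz] at h5
    have h6 : (τ.order : ℤ) ≤ τ.order.natAbs := Int.le_natAbs
    have h7 : (0 : ℤ) ≤ p := Int.natCast_nonneg p
    push_cast at h5
    have h8 : (((τ.order.natAbs : ℕ) : ℤ) + 1) * z.order ≤ -(((τ.order.natAbs : ℕ) : ℤ) + 1) := by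
      nlinarith [Int.natCast_nonneg τ.order.natAbs]
    push_cast at h6 h8
    have h9 : (p : ℤ) * ((|τ.order| + 1) * z.order) ≤ 0 :=
      mul_nonpos_of_nonneg_of_nonpos h7 (by have := abs_nonneg τ.order; linarith)
    linarith

variable {P : Set (LaurentSeries (ZMod p))}

theorem df_O {f : (ℕ → LaurentSeries (ZMod p)) → LaurentSeries (ZMod p)} (hf : DFn P f) :
    Df P (fun v => f v ∈ OO p) := by
  refine Df.c1 (Q := fun z => z ∈ OO p) ?_ hf
  refine Df.congr ?_ fun v => mem_O_iff (v 0)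
  refine Df.ex1 (R := fun τ v => Gd p τ ∧ (∀ x y, OT (p + 1) τ x → OT (p + 1) τ y →
    OT (p + 1) τ (x * y)) ∧ OT (p + 1) τ (v 0)) ?_
  refine (df_Gd p (DFn.var 0)).and (Df.and ?_ (df_OT _ (DFn.var 0) (DFn.var 1)))
  refine Df.all1 (R := fun x v => ∀ y, OT (p + 1) (v 0) x → OT (p + 1) (v 0) y →
    OT (p + 1) (v 0) (x * y)) ?_
  refine Df.all1 (R := fun y v => OT (p + 1) (v 1) (v 0) → OT (p + 1) (v 1) y →
    OT (p + 1) (v 1) (v 0 * y)) ?_
  exact (df_OT _ (DFn.var 2) (DFn.var 1)).imp ((df_OT _ (DFn.var 2) (DFn.var 0)).imp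
    (df_OT _ (DFn.var 2) ((DFn.var 1).mul (DFn.var 0))))

/-- `x` divides `y` in the valuation ring -/
def Le (x y : LaurentSeries (ZMod p)) : Prop := ∃ z, z ∈ OO p ∧ x * z = y

theorem le_iff {x y : LaurentSeries (ZMod p)} (hx : x ≠ 0) (hy : y ≠ 0) :
    Le x y ↔ x.order ≤ y.order := by
  constructor
  · rintro ⟨z, hz, rfl⟩
    have hz0 : z ≠ 0 := right_ne_zero_of_mul hy
    rw [Pool.Agent.Y748.UF.ord_mul hx hz0]
    have := (ord_nonneg hz0).1 hz
    omega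
  · intro h
    have h0 : y / x ≠ 0 := div_ne_zero hy hx
    have h1 : x * (y / x) = y := mul_div_cancel₀ _ hx
    refine ⟨y / x, ?_, h1⟩
    rw [ord_nonneg h0]
    have h2 := Pool.Agent.Y748.UF.ord_mul hx h0
    rw [h1] at h2
    omega

theorem df_Le {f g : (ℕ → LaurentSeries (ZMod p)) → LaurentSeries (ZMod p)} (hf : DFn P f)
    (hg : DFn P g) : Df P (fun v => Le (f v) (g v)) := by
  refine Df.c2 (Q := fun x y => Le x y) ?_ hf hg
  refine Df.ex1 (R := fun z v => z ∈ OO p ∧ v 0 * z = v 1) ?_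
  exact (df_O (DFn.var 0)).and (Df.eq ((DFn.var 1).mul (DFn.var 0)) (DFn.var 2))

/-- the same valuation -/
def Eqv (x y : LaurentSeries (ZMod p)) : Prop := Le x y ∧ Le y x

theorem eqv_iff {x y : LaurentSeries (ZMod p)} (hx : x ≠ 0) (hy : y ≠ 0) :
    Eqv x y ↔ x.order = y.order := by
  rw [Eqv, le_iff hx hy, le_iff hy hx]
  omega

theorem df_Eqv {f g : (ℕ → LaurentSeries (ZMod p)) → LaurentSeries (ZMod p)} (hf : DFn P f)
    (hg : DFn P g) : Df P (fun v => Eqv (f v) (g v)) :=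
  (df_Le hf hg).and (df_Le hg hf)

/-- nonzero elements of the valuation ring -/
def Nn (x : LaurentSeries (ZMod p)) : Prop := x ≠ 0 ∧ x ∈ OO p

theorem df_Nn {f : (ℕ → LaurentSeries (ZMod p)) → LaurentSeries (ZMod p)} (hf : DFn P f) :
    Df P (fun v => Nn (f v)) :=
  (Df.ne hf DFn.zero).and (df_O hf)

theorem ord_one : (1 : LaurentSeries (ZMod p)).order = 0 := HahnSeries.order_one

theorem exists_ord (n : ℤ) : ∃ x : LaurentSeries (ZMod p), x ≠ 0 ∧ x.order = n :=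
  ⟨HahnSeries.single n 1, HahnSeries.single_ne_zero one_ne_zero,
    HahnSeries.order_single one_ne_zero⟩

theorem Nn.nonneg {x : LaurentSeries (ZMod p)} (h : Nn x) : 0 ≤ x.order := (ord_nonneg h.1).1 h.2

theorem nn_iff {x : LaurentSeries (ZMod p)} (h : x ≠ 0) : Nn x ↔ 0 ≤ x.order :=
  ⟨fun h => h.nonneg, fun h' => ⟨h, (ord_nonneg h).2 h'⟩⟩

theorem Nn.mul {x y : LaurentSeries (ZMod p)} (h : Nn x) (h' : Nn y) : Nn (x * y) :=
  ⟨mul_ne_zero h.1 h'.1, O_mul h.2 h'.2⟩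

/-- uniformizers -/
def Un (x : LaurentSeries (ZMod p)) : Prop :=
  Nn x ∧ ¬ Eqv x 1 ∧ ∀ y, Nn y → ¬ Eqv y 1 → Le x y

theorem un_iff (x : LaurentSeries (ZMod p)) : Un x ↔ x ≠ 0 ∧ x.order = 1 := by
  constructor
  · rintro ⟨h1, h2, h3⟩
    refine ⟨h1.1, ?_⟩
    rw [eqv_iff h1.1 one_ne_zero, ord_one] at h2
    obtain ⟨y, hy, hy1⟩ := exists_ord (p := p) 1
    have h4 := h3 y ((nn_iff hy).2 (by omega)) (by
      rw [eqv_iff hy one_ne_zero, ord_one]
      omega)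
    rw [le_iff h1.1 hy] at h4
    have := h1.nonneg
    omega
  · rintro ⟨h1, h2⟩
    refine ⟨(nn_iff h1).2 (by omega), ?_, fun y hy h3 => ?_⟩
    · rw [eqv_iff h1 one_ne_zero, ord_one]
      omega
    · rw [eqv_iff hy.1 one_ne_zero, ord_one] at h3
      rw [le_iff h1 hy.1]
      have := hy.nonneg
      omega

theorem df_Un {f : (ℕ → LaurentSeries (ZMod p)) → LaurentSeries (ZMod p)} (hf : DFn P f) :
    Df P (fun v => Un (f v)) := by
  refine Df.c1 (Q := fun x => Un x) ?_ hf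
  refine (df_Nn (DFn.var 0)).and ((df_Eqv (DFn.var 0) DFn.one).not.and ?_)
  refine Df.all1 (R := fun y v => Nn y → ¬ Eqv y 1 → Le (v 0) y) ?_
  exact (df_Nn (DFn.var 0)).imp ((df_Eqv (DFn.var 0) DFn.one).not.imp
    (df_Le (DFn.var 1) (DFn.var 0)))

/-! ### multiplication from divisibility -/

/-- the least common multiple of `a` and `a + 1` -/
def LcR (D : LaurentSeries (ZMod p) → LaurentSeries (ZMod p) → Prop)
    (x z : LaurentSeries (ZMod p)) : Prop :=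
  ¬ Eqv z 1 ∧ ∃ π, Un π ∧ D x z ∧ D (x * π) z ∧ ∀ z', Nn z' → ¬ Eqv z' 1 → D x z' →
    D (x * π) z' → Le z z'

def SqR (D : LaurentSeries (ZMod p) → LaurentSeries (ZMod p) → Prop)
    (x u : LaurentSeries (ZMod p)) : Prop :=
  (Eqv x 1 ∧ Eqv u 1) ∨ (¬ Eqv x 1 ∧ ∃ z, Nn z ∧ LcR D x z ∧ Eqv (u * x) z)

def MuR (D : LaurentSeries (ZMod p) → LaurentSeries (ZMod p) → Prop)
    (x y z : LaurentSeries (ZMod p)) : Prop :=
  ∃ a b c, Nn a ∧ Nn b ∧ Nn c ∧ SqR D x a ∧ SqR D y b ∧ SqR D (x * y) c ∧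
    Eqv c (a * b * z * z)

section

variable {D : LaurentSeries (ZMod p) → LaurentSeries (ZMod p) → Prop}

theorem df_SqR (hD : Df P (fun v => D (v 0) (v 1)))
    {f g : (ℕ → LaurentSeries (ZMod p)) → LaurentSeries (ZMod p)} (hf : DFn P f)
    (hg : DFn P g) : Df P (fun v => SqR D (f v) (g v)) := by
  refine Df.c2 (Q := fun x y => SqR D x y) ?_ hf hg
  have hD' : ∀ {f g : (ℕ → LaurentSeries (ZMod p)) → LaurentSeries (ZMod p)}, DFn P f → DFn P g →
      Df P (fun v => D (f v) (g v)) := fun hf hg => Df.c2 hD hf hg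
  refine ((df_Eqv (DFn.var 0) DFn.one).and (df_Eqv (DFn.var 1) DFn.one)).or
    ((df_Eqv (DFn.var 0) DFn.one).not.and ?_)
  refine Df.ex1 (R := fun z v => Nn z ∧ LcR D (v 0) z ∧ Eqv (v 1 * v 0) z) ?_
  refine (df_Nn (DFn.var 0)).and (Df.and ?_ (df_Eqv ((DFn.var 2).mul (DFn.var 1)) (DFn.var 0)))
  refine (df_Eqv (DFn.var 0) DFn.one).not.and ?_
  refine Df.ex1 (R := fun π v => Un π ∧ D (v 1) (v 0) ∧ D (v 1 * π) (v 0) ∧
    ∀ z', Nn z' → ¬ Eqv z' 1 → D (v 1) z' → D (v 1 * π) z' → Le (v 0) z') ?_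
  refine (df_Un (DFn.var 0)).and ((hD' (DFn.var 2) (DFn.var 1)).and
    ((hD' ((DFn.var 2).mul (DFn.var 0)) (DFn.var 1)).and ?_))
  refine Df.all1 (R := fun z' v => Nn z' → ¬ Eqv z' 1 → D (v 2) z' → D (v 2 * v 0) z' →
    Le (v 1) z') ?_
  exact (df_Nn (DFn.var 0)).imp ((df_Eqv (DFn.var 0) DFn.one).not.imp
    ((hD' (DFn.var 3) (DFn.var 0)).imp ((hD' ((DFn.var 3).mul (DFn.var 1)) (DFn.var 0)).imp
      (df_Le (DFn.var 2) (DFn.var 0)))))

theorem df_MuR (hD : Df P (fun v => D (v 0) (v 1))) :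
    Df P (fun v => MuR D (v 0) (v 1) (v 2)) := by
  refine Df.ex1 (R := fun a v => ∃ b c, Nn a ∧ Nn b ∧ Nn c ∧ SqR D (v 0) a ∧ SqR D (v 1) b ∧
    SqR D (v 0 * v 1) c ∧ Eqv c (a * b * v 2 * v 2)) ?_
  refine Df.ex1 (R := fun b v => ∃ c, Nn (v 0) ∧ Nn b ∧ Nn c ∧ SqR D (v 1) (v 0) ∧
    SqR D (v 2) b ∧ SqR D (v 1 * v 2) c ∧ Eqv c (v 0 * b * v 3 * v 3)) ?_
  refine Df.ex1 (R := fun c v => Nn (v 1) ∧ Nn (v 0) ∧ Nn c ∧ SqR D (v 2) (v 1) ∧
    SqR D (v 3) (v 0) ∧ SqR D (v 2 * v 3) c ∧ Eqv c (v 1 * v 0 * v 4 * v 4)) ?_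
  refine (df_Nn (DFn.var 2)).and ((df_Nn (DFn.var 1)).and ((df_Nn (DFn.var 0)).and ?_))
  refine (df_SqR hD (DFn.var 3) (DFn.var 2)).and ((df_SqR hD (DFn.var 4) (DFn.var 1)).and
    ((df_SqR hD ((DFn.var 3).mul (DFn.var 4)) (DFn.var 0)).and ?_))
  exact df_Eqv (DFn.var 0) ((((DFn.var 2).mul (DFn.var 1)).mul (DFn.var 5)).mul (DFn.var 5))

/-- `D` is divisibility of valuations -/
def IsDiv (D : LaurentSeries (ZMod p) → LaurentSeries (ZMod p) → Prop) : Prop :=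
  ∀ x y, Nn x → Nn y → ¬ Eqv x 1 → (D x y ↔ x.order ∣ y.order)

theorem sq_iff (h : IsDiv D) {x u : LaurentSeries (ZMod p)} (hx : Nn x) (hu : Nn u) :
    SqR D x u ↔ u.order = x.order ^ 2 := by
  have hx0 := hx.nonneg
  have hu0 := hu.nonneg
  have hux : (u * x).order = u.order + x.order := Pool.Agent.Y748.UF.ord_mul hu.1 hx.1
  have hlc : ∀ z, Nn z → 0 < x.order →
      (LcR D x z ↔ z.order = x.order * (x.order + 1)) := by
    intro z hz hpos
    have hx1 : ¬ Eqv x 1 := by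
      rw [eqv_iff hx.1 one_ne_zero, ord_one]
      omega
    have hπ : ∀ π : LaurentSeries (ZMod p), Un π → Nn (x * π) ∧
        (x * π).order = x.order + 1 ∧ ¬ Eqv (x * π) 1 := by
      intro π h1
      have h2 := (un_iff π).1 h1
      have h3 := Pool.Agent.Y748.UF.ord_mul hx.1 h2.1
      have h4 : (x * π).order = x.order + 1 := by rw [h3, h2.2]
      refine ⟨hx.mul h1.1, h4, ?_⟩
      rw [eqv_iff (mul_ne_zero hx.1 h2.1) one_ne_zero, ord_one]
      omega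
    have hcop : IsCoprime x.order (x.order + 1) := ⟨-1, 1, by ring⟩
    constructor
    · rintro ⟨h1, π, h2, h3, h4, h5⟩
      obtain ⟨k1, k2, k3⟩ := hπ π h2
      rw [h _ _ hx hz hx1] at h3
      rw [h _ _ k1 hz k3, k2] at h4
      rw [eqv_iff hz.1 one_ne_zero, ord_one] at h1
      have hz0 := hz.nonneg
      obtain ⟨w, hw, hw1⟩ := exists_ord (p := p) (x.order * (x.order + 1))
      have hw2 : 0 < w.order := by rw [hw1]; positivity
      have hwn : Nn w := (nn_iff hw).2 hw2.le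
      have h6 := h5 w hwn (by
        rw [eqv_iff hw one_ne_zero, ord_one]
        omega) ((h _ _ hx hwn hx1).2 (by rw [hw1]; exact Dvd.intro _ rfl))
        ((h _ _ k1 hwn k3).2 (by rw [hw1, k2]; exact Dvd.intro_left _ rfl))
      rw [le_iff hz.1 hw, hw1] at h6
      have h7 : x.order * (x.order + 1) ∣ z.order := hcop.mul_dvd h3 h4
      exact le_antisymm h6 (Int.le_of_dvd (by omega) h7)
    · intro h1
      obtain ⟨π, hπ0, hπ1⟩ := exists_ord (p := p) 1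
      have hu1 : Un π := (un_iff π).2 ⟨hπ0, hπ1⟩
      obtain ⟨k1, k2, k3⟩ := hπ π hu1
      have hzpos : 0 < z.order := by rw [h1]; positivity
      refine ⟨?_, π, hu1, ?_, ?_, fun z' hz' h2 h3 h4 => ?_⟩
      · rw [eqv_iff hz.1 one_ne_zero, ord_one]
        omega
      · rw [h _ _ hx hz hx1, h1]
        exact Dvd.intro _ rfl
      · rw [h _ _ k1 hz k3, h1, k2]
        exact Dvd.intro_left _ rfl
      · rw [h _ _ hx hz' hx1] at h3
        rw [h _ _ k1 hz' k3, k2] at h4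
        rw [eqv_iff hz'.1 one_ne_zero, ord_one] at h2
        have hz0 := hz'.nonneg
        rw [le_iff hz.1 hz'.1, h1]
        exact Int.le_of_dvd (by omega) (hcop.mul_dvd h3 h4)
  unfold SqR
  rw [eqv_iff hx.1 one_ne_zero, eqv_iff hu.1 one_ne_zero, ord_one]
  constructor
  · rintro (⟨h1, h2⟩ | ⟨h1, z, hz, h2, h3⟩)
    · rw [h1, h2]
      norm_num
    · rw [hlc z hz (by omega)] at h2
      rw [eqv_iff (mul_ne_zero hu.1 hx.1) hz.1, hux, h2] at h3
      nlinarith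
  · intro h1
    by_cases h2 : x.order = 0
    · exact Or.inl ⟨h2, by rw [h1, h2]; norm_num⟩
    · right
      refine ⟨h2, ?_⟩
      obtain ⟨z, hz, hz1⟩ := exists_ord (p := p) (x.order * (x.order + 1))
      have hzn : Nn z := (nn_iff hz).2 (by rw [hz1]; positivity)
      refine ⟨z, hzn, (hlc z hzn (by omega)).2 hz1, ?_⟩
      rw [eqv_iff (mul_ne_zero hu.1 hx.1) hz, hux, hz1, h1]
      ring

theorem mu_iff (h : IsDiv D) {x y z : LaurentSeries (ZMod p)} (hx : Nn x) (hy : Nn y)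
    (hz : Nn z) : MuR D x y z ↔ x.order * y.order = z.order := by
  have hxy : (x * y).order = x.order + y.order := Pool.Agent.Y748.UF.ord_mul hx.1 hy.1
  have hab : ∀ a b : LaurentSeries (ZMod p), a ≠ 0 → b ≠ 0 →
      (a * b * z * z).order = a.order + b.order + z.order + z.order := by
    intro a b ha hb
    rw [Pool.Agent.Y748.UF.ord_mul (mul_ne_zero (mul_ne_zero ha hb) hz.1) hz.1,
      Pool.Agent.Y748.UF.ord_mul (mul_ne_zero ha hb) hz.1, Pool.Agent.Y748.UF.ord_mul ha hb]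
  constructor
  · rintro ⟨a, b, c, ha, hb, hc, h1, h2, h3, h4⟩
    rw [sq_iff h hx ha] at h1
    rw [sq_iff h hy hb] at h2
    rw [sq_iff h (hx.mul hy) hc, hxy] at h3
    rw [eqv_iff hc.1 (mul_ne_zero (mul_ne_zero (mul_ne_zero ha.1 hb.1) hz.1) hz.1),
      hab a b ha.1 hb.1, h1, h2, h3] at h4
    nlinarith
  · intro h1
    obtain ⟨a, ha, ha1⟩ := exists_ord (p := p) (x.order ^ 2)
    obtain ⟨b, hb, hb1⟩ := exists_ord (p := p) (y.order ^ 2)
    obtain ⟨c, hc, hc1⟩ := exists_ord (p := p) ((x.order + y.order) ^ 2)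
    have ka : Nn a := (nn_iff ha).2 (by rw [ha1]; positivity)
    have kb : Nn b := (nn_iff hb).2 (by rw [hb1]; positivity)
    have kc : Nn c := (nn_iff hc).2 (by rw [hc1]; positivity)
    refine ⟨a, b, c, ka, kb, kc, (sq_iff h hx ka).2 ha1, (sq_iff h hy kb).2 hb1,
      (sq_iff h (hx.mul hy) kc).2 (by rw [hc1, hxy]), ?_⟩
    rw [eqv_iff hc (mul_ne_zero (mul_ne_zero (mul_ne_zero ha hb) hz.1) hz.1),
      hab a b ha hb, ha1, hb1, hc1, ← h1]
    ring

end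

end Pool.Agent.K9h38.VG
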